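import Pool.Agent.Zk33.HF.Main1

/-!
Common points of independent scaling limits of the exploration path: upper bounds.
-/

set_option autoImplicit false

namespace Pool.Agent.Zk33.HF

open H984N MeasureTheory Filter Topology Metric Set Pool.Agent.H389R2.Dim
open scoped ENNReal NNReal

theorem hit_sub {k : ℕ} (hk : 1 ≤ k) (z : ℂ) {r : ℝ} (hr : 0 ≤ r) :
    {ω : Fin k → X | (comm ω ∩ closedBall z r).Nonempty} ⊆ {ω | Gs ω z ≤ k * r} := by
  rintro ω ⟨x, hx, hxz⟩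
  show ∑ i, Gd (ω i) z ≤ k * r
  have h1 : ∀ i ∈ (Finset.univ : Finset (Fin k)), Gd (ω i) z ≤ r := by
    intro i _
    obtain ⟨u, hu⟩ := (mem_iInter.1 hx i : x ∈ range (ω i).1)
    refine Gd_le_iff.2 ⟨u, ?_⟩
    rw [hu]
    exact hxz
  calc ∑ i, Gd (ω i) z ≤ ∑ _i : Fin k, r := Finset.sum_le_sum h1
    _ = k * r := by simp

/-- One disc. -/
theorem hit_disc {k : ℕ} (hk : 1 ≤ k) (R : Fin k → Rect) {K : Set ℂ} (hK : IsCompact K)
    (hD : ∀ i, K ⊆ (R i).D) : ∃ C ρ0 : ℝ, 0 < C ∧ 0 < ρ0 ∧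
    ∀ μ : Fin k → ProbabilityMeasure X, (∀ i, IsLimit (R i) (μ i)) →
      ∀ z ∈ K, ∀ r : ℝ, 0 < r → r ≤ ρ0 →
        (Pm μ).real {ω | (comm ω ∩ closedBall z r).Nonempty} ≤ C * r ^ ((k : ℝ) / 4) := by
  obtain ⟨a, C, ρ0, ha, hC, hρ0, hρ1, hB⟩ := bds_prod hk R hK hD
  have hk0 : (0 : ℝ) < k := by exact_mod_cast hk
  refine ⟨C * (k : ℝ) ^ ((k : ℝ) / 4), ρ0 / k, by positivity, by positivity, ?_⟩
  intro μ hμ z hz r hr hrρ
  have hkr : 0 < k * r := by positivity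
  have hkr2 : k * r ≤ ρ0 := by
    rw [le_div_iff₀ hk0] at hrρ
    linarith
  have h1 := (hB μ hμ).up z hz z hz (k * r) hkr hkr2
  rw [inter_self, dist_self, max_eq_right hkr.le] at h1
  refine (measureReal_mono (hit_sub hk z hr.le) (measure_ne_top _ _)).trans (h1.trans ?_)
  rw [mul_assoc, ← Real.rpow_add hkr, show 2 * ((k : ℝ) / 4) + -((k : ℝ) / 4) = (k : ℝ) / 4 by ring,
    Real.mul_rpow hk0.le hr.le, mul_assoc]

/-- **Upper bound by the content.** -/
theorem content_up {k : ℕ} (hk : 1 ≤ k) (R : Fin k → Rect) {K : Set ℂ} (hK : IsCompact K)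
    (hD : ∀ i, K ⊆ (R i).D) : ∃ C : ℝ, 0 < C ∧
    ∀ μ : Fin k → ProbabilityMeasure X, (∀ i, IsLimit (R i) (μ i)) →
    ∀ S : Set ℂ, S ⊆ K → ∀ s : Finset (ℂ × ℝ), (∀ p ∈ s, 0 < p.2) →
      S ⊆ ⋃ p ∈ s, ball p.1 p.2 →
      (Pm μ).real {ω | (S ∩ comm ω).Nonempty} ≤ C * ∑ p ∈ s, p.2 ^ ((k : ℝ) / 4) := by
  classical
  obtain ⟨C, ρ0, hC, hρ0, h⟩ := hit_disc hk R hK hD
  have hk0 : (0 : ℝ) < (k : ℝ) / 4 := by
    have : (0 : ℝ) < k := by exact_mod_cast hk
    positivity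
  have hM : 0 < max C ((1 / ρ0) ^ ((k : ℝ) / 4)) := lt_max_of_lt_left hC
  refine ⟨max C ((1 / ρ0) ^ ((k : ℝ) / 4)) * 2 ^ ((k : ℝ) / 4), by positivity, ?_⟩
  intro μ hμ S hS s hs hcov
  -- one disc of the cover
  have key : ∀ p ∈ s, (Pm μ).real {ω | ((S ∩ ball p.1 p.2) ∩ comm ω).Nonempty} ≤
      max C ((1 / ρ0) ^ ((k : ℝ) / 4)) * 2 ^ ((k : ℝ) / 4) * p.2 ^ ((k : ℝ) / 4) := by
    intro p hp
    have hp0 := hs p hp
    have e1 : max C ((1 / ρ0) ^ ((k : ℝ) / 4)) * 2 ^ ((k : ℝ) / 4) * p.2 ^ ((k : ℝ) / 4) =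
        max C ((1 / ρ0) ^ ((k : ℝ) / 4)) * (2 * p.2) ^ ((k : ℝ) / 4) := by
      rw [Real.mul_rpow (by norm_num) hp0.le]
      ring
    rw [e1]
    rcases (S ∩ ball p.1 p.2).eq_empty_or_nonempty with he | ⟨x, hxS, hxp⟩
    · rw [he]
      have e2 : {ω : Fin k → X | ((∅ : Set ℂ) ∩ comm ω).Nonempty} = ∅ := by
        ext ω
        rw [mem_ofPred_eq, empty_inter]
        exact ⟨fun h => absurd h Set.not_nonempty_empty, fun h => absurd h (notMem_empty ω)⟩
      rw [e2, measureReal_empty]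
      positivity
    · rcases le_or_gt (2 * p.2) ρ0 with h2 | h2
      · refine le_trans ?_ (mul_le_mul_of_nonneg_right (le_max_left _ _) (by positivity))
        refine le_trans (measureReal_mono ?_ (measure_ne_top _ _))
          (h μ hμ x (hS hxS) (2 * p.2) (by positivity) h2)
        rintro ω ⟨y, ⟨hyS, hyp⟩, hy⟩
        refine ⟨y, hy, ?_⟩
        rw [mem_closedBall]
        have h3 := dist_triangle_right y x p.1
        have h4 := mem_ball.1 hyp
        have h5 := mem_ball.1 hxp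
        linarith
      · refine le_trans measureReal_le_one ?_
        refine le_trans ?_ (mul_le_mul_of_nonneg_right (le_max_right _ _) (by positivity))
        rw [← Real.mul_rpow (by positivity) (by positivity)]
        refine Real.one_le_rpow ?_ hk0.le
        rw [one_div, inv_mul_eq_div, one_le_div hρ0]
        exact h2.le
  have hsub : {ω : Fin k → X | (S ∩ comm ω).Nonempty} ⊆
      ⋃ p ∈ s, {ω | ((S ∩ ball p.1 p.2) ∩ comm ω).Nonempty} := by
    rintro ω ⟨y, hyS, hy⟩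
    obtain ⟨p, hp, hyp⟩ := mem_iUnion₂.1 (hcov hyS)
    exact mem_iUnion₂.2 ⟨p, hp, y, ⟨hyS, hyp⟩, hy⟩
  calc (Pm μ).real {ω | (S ∩ comm ω).Nonempty}
      ≤ (Pm μ).real (⋃ p ∈ s, {ω | ((S ∩ ball p.1 p.2) ∩ comm ω).Nonempty}) :=
        measureReal_mono hsub (measure_ne_top _ _)
    _ ≤ ∑ p ∈ s, (Pm μ).real {ω | ((S ∩ ball p.1 p.2) ∩ comm ω).Nonempty} :=
        measureReal_biUnion_finset_le _ _
    _ ≤ ∑ p ∈ s, max C ((1 / ρ0) ^ ((k : ℝ) / 4)) * 2 ^ ((k : ℝ) / 4) * p.2 ^ ((k : ℝ) / 4) :=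
        Finset.sum_le_sum key
    _ = _ := by rw [← Finset.mul_sum]

/-- compact exhaustion -/
def Kn {k : ℕ} (R : Fin k → Rect) (n : ℕ) : Set ℂ := {z | ∀ i, Inn (R i) (1 / ((n : ℝ) + 1)) z}

theorem Kn_compact {k : ℕ} (hk : 1 ≤ k) (R : Fin k → Rect) (n : ℕ) : IsCompact (Kn R n) := by
  have hcl : IsClosed (Kn R n) := by
    unfold Kn
    have : {z : ℂ | ∀ i, Inn (R i) (1 / ((n : ℝ) + 1)) z} =
        ⋂ i, {z | Inn (R i) (1 / ((n : ℝ) + 1)) z} := by
      ext z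
      simp only [mem_ofPred_eq, mem_iInter]
    rw [this]
    refine isClosed_iInter fun i => ?_
    refine IsClosed.inter (IsClosed.inter ?_ ?_) (IsClosed.inter ?_ ?_)
    · exact isClosed_le continuous_const Complex.continuous_re
    · exact isClosed_le Complex.continuous_re continuous_const
    · exact isClosed_le continuous_const Complex.continuous_im
    · exact isClosed_le Complex.continuous_im continuous_const
  refine Metric.isCompact_of_isClosed_isBounded hcl ?_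
  set i0 : Fin k := ⟨0, hk⟩
  refine (Metric.isBounded_closedBall (x := (0 : ℂ))
    (r := (R i0).A + (R i0).B + (R i0).H)).subset ?_
  intro z hz
  obtain ⟨⟨h1, h2⟩, h3, h4⟩ := hz i0
  have hn : (0 : ℝ) < 1 / ((n : ℝ) + 1) := by positivity
  have hA := (R i0).hA
  have hB := (R i0).hB
  rw [mem_closedBall, dist_zero_right]
  refine (Complex.norm_le_abs_re_add_abs_im z).trans ?_
  have a1 : |z.re| ≤ (R i0).A + (R i0).B := by
    rw [abs_le]
    constructor <;> linarith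
  have a2 : |z.im| ≤ (R i0).H := by
    rw [abs_le]
    constructor <;> linarith
  linarith

theorem Kn_sub {k : ℕ} (R : Fin k → Rect) (n : ℕ) (i : Fin k) : Kn R n ⊆ (R i).D := by
  intro z hz
  obtain ⟨⟨h1, h2⟩, h3, h4⟩ := hz i
  have hn : (0 : ℝ) < 1 / ((n : ℝ) + 1) := by positivity
  exact ⟨by linarith, by linarith, by linarith, by linarith⟩

theorem Kn_union {k : ℕ} (R : Fin k → Rect) {S : Set ℂ} (hS : ∀ i, S ⊆ (R i).D) :
    S = ⋃ n, S ∩ Kn R n := by
  ext z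
  rw [mem_iUnion]
  constructor
  · intro hz
    choose η hη hin using fun i => exists_inn (R i) (isCompact_singleton (x := z))
      (singleton_subset_iff.2 (hS i hz))
    have h1 : ∀ i, ∀ᶠ n : ℕ in atTop, 1 / ((n : ℝ) + 1) ≤ η i := fun i =>
      (tendsto_one_div_add_atTop_nhds_zero_nat.eventually_lt_const (hη i)).mono fun n h => h.le
    obtain ⟨n, hn⟩ := (eventually_all.2 h1).exists
    exact ⟨n, hz, fun i => (hin i z rfl).le (hn i)⟩
  · rintro ⟨n, h, -⟩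
    exact h

/-- **Dimension, upper bound.** -/
theorem dim_up {k : ℕ} (hk : 1 ≤ k) (R : Fin k → Rect) {μ : Fin k → ProbabilityMeasure X}
    (hμ : ∀ i, IsLimit (R i) (μ i)) {S : Set ℂ} (hS : ∀ i, S ⊆ (R i).D) :
    ∀ᵐ ω ∂(Pm μ), dimH (S ∩ comm ω) ≤ dimH S - ENNReal.ofReal ((k : ℝ) / 4) ∧
      (dimH S < ENNReal.ofReal ((k : ℝ) / 4) → S ∩ comm ω = ∅) := by
  have hk0 : (0 : ℝ) < (k : ℝ) / 4 := by
    have : (0 : ℝ) < k := by exact_mod_cast hk
    positivity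
  choose C ρ0 hC hρ0 h using fun n => hit_disc hk R (Kn_compact hk R n) (Kn_sub R n)
  have hm : ∀ (z : ℂ) (r : ℝ), MeasurableSet {ω : Fin k → X | (comm ω ∩ closedBall z r).Nonempty} := by
    intro z r
    have h1 := (isClosed_hit (k := k) (isCompact_closedBall z r)).measurableSet
    have e : {ω : Fin k → X | (comm ω ∩ closedBall z r).Nonempty} =
        {ω | (closedBall z r ∩ comm ω).Nonempty} := by
      ext ω
      rw [mem_ofPred_eq, mem_ofPred_eq, inter_comm]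
    rw [e]
    exact h1
  have key := Pool.Agent.Zk11.HF.up_dim (μ := Pm μ) (K := fun ω : Fin k → X => comm ω) hm hk0
    (Kn R) (Kn_union R hS) C ρ0 hρ0 (fun n z hz r hr hr2 => by
      have h1 := h n μ hμ z hz.2 r hr hr2
      rw [ENNReal.ofReal_rpow_of_pos hr, ← ENNReal.ofReal_mul (hC n).le]
      exact (ENNReal.le_ofReal_iff_toReal_le (measure_ne_top _ _) (by
        have := hC n
        positivity)).2 h1)
  filter_upwards [key] with ω hω
  rw [inter_comm]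
  exact hω

end Pool.Agent.Zk33.HF
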