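import Mathlib

/-!
Second moment method for weighted sums of indicator functions.
-/

set_option autoImplicit false

namespace Pool.Agent.Zk33.HF

open MeasureTheory Finset

variable {Ω : Type*} [MeasurableSpace Ω]

/-- indicator of an event -/
noncomputable def ind (A : Set Ω) (ω : Ω) : ℝ := A.indicator (fun _ => (1 : ℝ)) ω

omit [MeasurableSpace Ω] in
theorem ind_nonneg (A : Set Ω) (ω : Ω) : 0 ≤ ind A ω := by
  unfold ind
  exact Set.indicator_nonneg (fun _ _ => zero_le_one) ω

omit [MeasurableSpace Ω] in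
theorem ind_inter (A B : Set Ω) (ω : Ω) : ind (A ∩ B) ω = ind A ω * ind B ω := by
  classical
  unfold ind
  by_cases h1 : ω ∈ A <;> by_cases h2 : ω ∈ B <;> simp [h1, h2]

theorem measurable_ind {A : Set Ω} (hA : MeasurableSet A) : Measurable (ind A) :=
  measurable_const.indicator hA

theorem integrable_ind {μ : Measure Ω} [IsFiniteMeasure μ] {A : Set Ω} (hA : MeasurableSet A) :
    Integrable (ind A) μ := (integrable_const (1 : ℝ)).indicator hA

theorem integral_ind {μ : Measure Ω} {A : Set Ω} (hA : MeasurableSet A) :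
    ∫ ω, ind A ω ∂μ = μ.real A := by
  unfold ind
  rw [integral_indicator hA]
  simp

/-- the weighted number of events which occur -/
noncomputable def tot {ι : Type*} (V : Finset ι) (w : ι → ℝ) (H : ι → Set Ω) (ω : Ω) : ℝ :=
  ∑ i ∈ V, w i * ind (H i) ω

/-- the energy of the events which occur -/
noncomputable def ene {ι : Type*} (V : Finset ι) (w : ι → ℝ) (q : ι → ι → ℝ) (H : ι → Set Ω)
    (ω : Ω) : ℝ := ∑ i ∈ V, ∑ j ∈ V, w i * w j * q i j * ind (H i ∩ H j) ω

theorem measurable_tot {ι : Type*} {V : Finset ι} {w : ι → ℝ} {H : ι → Set Ω}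
    (hH : ∀ i, MeasurableSet (H i)) : Measurable (tot V w H) := by
  unfold tot
  exact Finset.measurable_sum _ fun i _ => (measurable_ind (hH i)).const_mul _

theorem measurable_ene {ι : Type*} {V : Finset ι} {w : ι → ℝ} {q : ι → ι → ℝ} {H : ι → Set Ω}
    (hH : ∀ i, MeasurableSet (H i)) : Measurable (ene V w q H) := by
  unfold ene
  exact Finset.measurable_sum _ fun i _ => Finset.measurable_sum _ fun j _ =>
    (measurable_ind ((hH i).inter (hH j))).const_mul _

omit [MeasurableSpace Ω] in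
theorem tot_sq {ι : Type*} (V : Finset ι) (w : ι → ℝ) (H : ι → Set Ω) (ω : Ω) :
    tot V w H ω ^ 2 = ene V w (fun _ _ => 1) H ω := by
  unfold tot ene
  rw [sq, Finset.sum_mul_sum]
  refine Finset.sum_congr rfl fun i _ => Finset.sum_congr rfl fun j _ => ?_
  rw [ind_inter]
  ring

theorem integral_tot {μ : Measure Ω} [IsFiniteMeasure μ] {ι : Type*} {V : Finset ι} {w : ι → ℝ}
    {H : ι → Set Ω} (hH : ∀ i, MeasurableSet (H i)) :
    ∫ ω, tot V w H ω ∂μ = ∑ i ∈ V, w i * μ.real (H i) := by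
  unfold tot
  rw [integral_finsetSum _ fun i _ => (integrable_ind (hH i)).const_mul _]
  refine Finset.sum_congr rfl fun i _ => ?_
  rw [integral_const_mul, integral_ind (hH i)]

theorem integrable_tot {μ : Measure Ω} [IsFiniteMeasure μ] {ι : Type*} {V : Finset ι} {w : ι → ℝ}
    {H : ι → Set Ω} (hH : ∀ i, MeasurableSet (H i)) : Integrable (tot V w H) μ :=
  integrable_finsetSum _ fun i _ => (integrable_ind (hH i)).const_mul _

theorem integrable_ene {μ : Measure Ω} [IsFiniteMeasure μ] {ι : Type*} {V : Finset ι} {w : ι → ℝ}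
    {q : ι → ι → ℝ} {H : ι → Set Ω} (hH : ∀ i, MeasurableSet (H i)) :
    Integrable (ene V w q H) μ :=
  integrable_finsetSum _ fun i _ => integrable_finsetSum _ fun j _ =>
    (integrable_ind ((hH i).inter (hH j))).const_mul _

theorem integral_ene {μ : Measure Ω} [IsFiniteMeasure μ] {ι : Type*} {V : Finset ι} {w : ι → ℝ}
    {q : ι → ι → ℝ} {H : ι → Set Ω} (hH : ∀ i, MeasurableSet (H i)) :
    ∫ ω, ene V w q H ω ∂μ = ∑ i ∈ V, ∑ j ∈ V, w i * w j * q i j * μ.real (H i ∩ H j) := by
  unfold ene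
  rw [integral_finsetSum _ fun i _ => integrable_finsetSum _ fun j _ =>
    (integrable_ind ((hH i).inter (hH j))).const_mul _]
  refine Finset.sum_congr rfl fun i _ => ?_
  rw [integral_finsetSum _ fun j _ => (integrable_ind ((hH i).inter (hH j))).const_mul _]
  refine Finset.sum_congr rfl fun j _ => ?_
  rw [integral_const_mul, integral_ind ((hH i).inter (hH j))]

/-- **Second moment method.** -/
theorem second_moment {μ : Measure Ω} [IsProbabilityMeasure μ] {ι : Type*} {V : Finset ι}
    {w : ι → ℝ} (hw : ∀ i ∈ V, 0 ≤ w i) {q : ι → ι → ℝ} (hq : ∀ i j, 0 ≤ q i j) {H : ι → Set Ω}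
    (hH : ∀ i, MeasurableSet (H i)) {a B Q : ℝ} (ha : 0 < a) (hB : 0 < B) (hQ : 0 < Q)
    (h1 : a ≤ ∑ i ∈ V, w i * μ.real (H i))
    (h2 : ∑ i ∈ V, ∑ j ∈ V, w i * w j * μ.real (H i ∩ H j) ≤ B)
    (h3 : ∑ i ∈ V, ∑ j ∈ V, w i * w j * q i j * μ.real (H i ∩ H j) ≤ Q) :
    a ^ 2 / (8 * B) ≤ μ.real {ω | a / 2 ≤ tot V w H ω ∧ ene V w q H ω ≤ 8 * B * Q / a ^ 2} := by
  set G : Set Ω := {ω | a / 2 ≤ tot V w H ω ∧ ene V w q H ω ≤ 8 * B * Q / a ^ 2} with hG
  have hGm : MeasurableSet G :=
    (measurableSet_le measurable_const (measurable_tot hH)).inter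
      (measurableSet_le (measurable_ene hH) measurable_const)
  have hΛ : 0 < 8 * B * Q / a ^ 2 := by positivity
  have hene : ∀ ω, 0 ≤ ene V w q H ω := fun ω =>
    Finset.sum_nonneg fun i hi => Finset.sum_nonneg fun j hj =>
      mul_nonneg (mul_nonneg (mul_nonneg (hw i hi) (hw j hj)) (hq i j)) (ind_nonneg _ _)
  -- pointwise inequality
  have hpt : ∀ ω, tot V w H ω ≤ a / 2 + a / (4 * B) * ene V w (fun _ _ => 1) H ω +
      B / a * (ind G ω + ene V w q H ω / (8 * B * Q / a ^ 2)) := by
    intro ω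
    rw [← tot_sq]
    have e0 : 0 ≤ a / (4 * B) * tot V w H ω ^ 2 := by positivity
    have e1 : 0 ≤ ene V w q H ω / (8 * B * Q / a ^ 2) := div_nonneg (hene ω) hΛ.le
    have e2 := ind_nonneg G ω
    have e3 : 0 < B / a := by positivity
    by_cases hm : tot V w H ω < a / 2
    · have : 0 ≤ B / a * (ind G ω + ene V w q H ω / (8 * B * Q / a ^ 2)) := by positivity
      linarith
    · rw [not_lt] at hm
      have key : 1 ≤ ind G ω + ene V w q H ω / (8 * B * Q / a ^ 2) := by
        by_cases he : ene V w q H ω ≤ 8 * B * Q / a ^ 2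
        · have : ind G ω = 1 := by
            unfold ind
            rw [Set.indicator_of_mem]
            exact ⟨hm, he⟩
          rw [this]; linarith
        · rw [not_le] at he
          have : 1 ≤ ene V w q H ω / (8 * B * Q / a ^ 2) := by
            rw [le_div_iff₀ hΛ]; linarith
          linarith
      have h4 : B / a * 1 ≤ B / a * (ind G ω + ene V w q H ω / (8 * B * Q / a ^ 2)) :=
        mul_le_mul_of_nonneg_left key e3.le
      have h5 : tot V w H ω ≤ a / (4 * B) * tot V w H ω ^ 2 + B / a * 1 := by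
        have h6 : 0 ≤ (a / (2 * B) * tot V w H ω - 1) ^ 2 * (B / a) := by positivity
        have h7 : (a / (2 * B) * tot V w H ω - 1) ^ 2 * (B / a) =
            a / (4 * B) * tot V w H ω ^ 2 + B / a * 1 - tot V w H ω := by
          field_simp
          ring
        linarith
      linarith
  have i1 : Integrable (tot V w H) μ := integrable_tot hH
  have i2 : Integrable (ene V w (fun _ _ => 1) H) μ := integrable_ene hH
  have i3 : Integrable (ene V w q H) μ := integrable_ene hH
  have i4 : Integrable (ind G) μ := integrable_ind hGm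
  have hint : ∫ ω, tot V w H ω ∂μ ≤ ∫ ω, (a / 2 + a / (4 * B) * ene V w (fun _ _ => 1) H ω +
      B / a * (ind G ω + ene V w q H ω / (8 * B * Q / a ^ 2))) ∂μ := by
    refine integral_mono i1 ?_ hpt
    exact ((integrable_const _).add (i2.const_mul _)).add ((i4.add (i3.div_const _)).const_mul _)
  have hr : ∫ ω, (a / 2 + a / (4 * B) * ene V w (fun _ _ => 1) H ω +
      B / a * (ind G ω + ene V w q H ω / (8 * B * Q / a ^ 2))) ∂μ =
      a / 2 + a / (4 * B) * (∑ i ∈ V, ∑ j ∈ V, w i * w j * μ.real (H i ∩ H j)) +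
      B / a * (μ.real G + (∑ i ∈ V, ∑ j ∈ V, w i * w j * q i j * μ.real (H i ∩ H j)) /
        (8 * B * Q / a ^ 2)) := by
    have j1 : Integrable (fun ω => a / 2 + a / (4 * B) * ene V w (fun _ _ => 1) H ω) μ :=
      (integrable_const _).add (i2.const_mul _)
    have j2 : Integrable (fun ω => ene V w q H ω / (8 * B * Q / a ^ 2)) μ := i3.div_const _
    have j3 : Integrable (fun ω => B / a * (ind G ω + ene V w q H ω / (8 * B * Q / a ^ 2))) μ :=
      (i4.add j2).const_mul _
    have k1 : ∫ ω, ene V w q H ω / (8 * B * Q / a ^ 2) ∂μ =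
        (∑ i ∈ V, ∑ j ∈ V, w i * w j * q i j * μ.real (H i ∩ H j)) / (8 * B * Q / a ^ 2) := by
      rw [integral_div, integral_ene hH]
    have k2 : ∫ _ω : Ω, a / 2 ∂μ = a / 2 := by simp
    rw [integral_add j1 j3, integral_add (integrable_const _) (i2.const_mul _),
      integral_const_mul, integral_const_mul, integral_add i4 j2, k1, k2,
      integral_ene hH, integral_ind hGm]
    simp only [mul_one]
  rw [hr, integral_tot hH] at hint
  have h4 : a / (4 * B) * (∑ i ∈ V, ∑ j ∈ V, w i * w j * μ.real (H i ∩ H j)) ≤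
      a / (4 * B) * B := mul_le_mul_of_nonneg_left h2 (by positivity)
  have h5 : (∑ i ∈ V, ∑ j ∈ V, w i * w j * q i j * μ.real (H i ∩ H j)) /
      (8 * B * Q / a ^ 2) ≤ Q / (8 * B * Q / a ^ 2) := div_le_div_of_nonneg_right h3 hΛ.le
  have h6 : B / a * (μ.real G + (∑ i ∈ V, ∑ j ∈ V, w i * w j * q i j * μ.real (H i ∩ H j)) /
      (8 * B * Q / a ^ 2)) ≤ B / a * (μ.real G + Q / (8 * B * Q / a ^ 2)) :=
    mul_le_mul_of_nonneg_left (by linarith) (by positivity)
  have h7 : a ≤ a / 2 + a / (4 * B) * B + B / a * (μ.real G + Q / (8 * B * Q / a ^ 2)) := by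
    linarith
  have e1 : a / (4 * B) * B = a / 4 := by field_simp
  have e2 : Q / (8 * B * Q / a ^ 2) = a ^ 2 / (8 * B) := by field_simp
  rw [e1, e2] at h7
  have h8 : a / 4 ≤ B / a * (μ.real G + a ^ 2 / (8 * B)) := by linarith
  have h9 : a / 4 * (a / B) ≤ μ.real G + a ^ 2 / (8 * B) := by
    have h10 : a / 4 * (a / B) ≤ (B / a * (μ.real G + a ^ 2 / (8 * B))) * (a / B) :=
      mul_le_mul_of_nonneg_right h8 (by positivity)
    have h11 : (B / a * (μ.real G + a ^ 2 / (8 * B))) * (a / B) = μ.real G + a ^ 2 / (8 * B) := by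
      field_simp
    linarith
  have e3 : a / 4 * (a / B) = 2 * (a ^ 2 / (8 * B)) := by
    field_simp
    ring
  linarith

end Pool.Agent.Zk33.HF
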