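import Pool.Agent.Zk33.HF.Cont
import Pool.Agent.Zk33.HF.Prob

/-!
Second moment bounds for the discs imply positive content with positive probability.
-/

set_option autoImplicit false

namespace Pool.Agent.Zk33.HF

open MeasureTheory Metric Set Filter Topology Pool.Agent.H389R2.Dim
open scoped ENNReal NNReal

/-- One-point and two-point bounds. -/
structure Bds {Ω : Type*} [TopologicalSpace Ω] [MeasurableSpace Ω] (μ : Measure Ω)
    (G : Ω → ℂ → ℝ) (K0 : Set ℂ) (b a C ρ0 : ℝ) : Prop where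
  cont : Continuous fun p : Ω × ℂ => G p.1 p.2
  low : ∀ z ∈ K0, ∀ ρ, 0 < ρ → ρ ≤ ρ0 → a * ρ ^ b ≤ μ.real {ω | G ω z ≤ ρ}
  up : ∀ z ∈ K0, ∀ w ∈ K0, ∀ ρ, 0 < ρ → ρ ≤ ρ0 →
    μ.real ({ω | G ω z ≤ ρ} ∩ {ω | G ω w ≤ ρ}) ≤ C * ρ ^ (2 * b) * (max (dist z w) ρ) ^ (-b)

variable {Ω : Type*} [TopologicalSpace Ω] [MeasurableSpace Ω] [BorelSpace Ω]

theorem good_prob {μ : Measure Ω} [IsProbabilityMeasure μ] {G : Ω → ℂ → ℝ} {K0 S : Set ℂ}
    {b a C ρ0 t E0 E1 ρ : ℝ} (hB : Bds μ G K0 b a C ρ0) (ha : 0 < a) (hC : 0 < C) (hE0 : 0 < E0)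
    (hE1 : 0 < E1) (ht : 0 ≤ t) (hS : S ⊆ K0) (hSc : IsCompact S) (hρ : 0 < ρ) (hρ0 : ρ ≤ ρ0)
    (hW : Wt S b t E0 E1 ρ) :
    a ^ 2 / (8 * (C * E0)) ≤
      μ.real {ω | Good t ρ (2 ^ (-t) / (32 * C ^ 2 * E0 * E1 / a ^ 4)) (NS G ρ S ω)} := by
  obtain ⟨V, w, x, hw, hx, h1, he0, he1⟩ := hW
  set H : ℤ × ℤ → Set Ω := fun i => {ω | G ω (x i) ≤ ρ} with hH
  have hHm : ∀ i, MeasurableSet (H i) := fun i =>
    (isClosed_le (hB.cont.comp (continuous_id.prodMk continuous_const))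
      continuous_const).measurableSet
  set q : ℤ × ℤ → ℤ × ℤ → ℝ := fun i j => (max (dist (x i) (x j)) ρ) ^ (-t) with hq
  have hmp : ∀ i j, 0 < max (dist (x i) (x j)) ρ := fun i j => hρ.trans_le (le_max_right _ _)
  have hq0 : ∀ i j, 0 ≤ q i j := fun i j => Real.rpow_nonneg (hmp i j).le _
  have hρb : 0 < ρ ^ b := Real.rpow_pos_of_pos hρ _
  have hρ2 : ρ ^ (2 * b) = ρ ^ b * ρ ^ b := by
    rw [← Real.rpow_add hρ]; congr 1; ring
  have k1 : a * ρ ^ b ≤ ∑ i ∈ V, w i * μ.real (H i) := by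
    calc a * ρ ^ b = ∑ i ∈ V, w i * (a * ρ ^ b) := by rw [← Finset.sum_mul, h1, one_mul]
      _ ≤ ∑ i ∈ V, w i * μ.real (H i) := Finset.sum_le_sum fun i hi =>
          mul_le_mul_of_nonneg_left (hB.low _ (hS (hx i hi)) ρ hρ hρ0) (hw i hi)
  have k2 : ∑ i ∈ V, ∑ j ∈ V, w i * w j * μ.real (H i ∩ H j) ≤ C * ρ ^ (2 * b) * E0 := by
    calc ∑ i ∈ V, ∑ j ∈ V, w i * w j * μ.real (H i ∩ H j) ≤
          ∑ i ∈ V, ∑ j ∈ V, C * ρ ^ (2 * b) *
            (w i * w j * (max (dist (x i) (x j)) ρ) ^ (-b)) := by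
          refine Finset.sum_le_sum fun i hi => Finset.sum_le_sum fun j hj => ?_
          have h2 := hB.up _ (hS (hx i hi)) _ (hS (hx j hj)) ρ hρ hρ0
          have h3 := mul_le_mul_of_nonneg_left h2 (mul_nonneg (hw i hi) (hw j hj))
          calc w i * w j * μ.real (H i ∩ H j) ≤ _ := h3
            _ = _ := by ring
      _ = C * ρ ^ (2 * b) * ∑ i ∈ V, ∑ j ∈ V,
            w i * w j * (max (dist (x i) (x j)) ρ) ^ (-b) := by
          rw [Finset.mul_sum]
          exact Finset.sum_congr rfl fun i _ => by rw [Finset.mul_sum]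
      _ ≤ _ := mul_le_mul_of_nonneg_left he0 (by positivity)
  have k3 : ∑ i ∈ V, ∑ j ∈ V, w i * w j * q i j * μ.real (H i ∩ H j) ≤
      C * ρ ^ (2 * b) * E1 := by
    calc ∑ i ∈ V, ∑ j ∈ V, w i * w j * q i j * μ.real (H i ∩ H j) ≤
          ∑ i ∈ V, ∑ j ∈ V, C * ρ ^ (2 * b) *
            (w i * w j * (max (dist (x i) (x j)) ρ) ^ (-(b + t))) := by
          refine Finset.sum_le_sum fun i hi => Finset.sum_le_sum fun j hj => ?_
          have h2 := hB.up _ (hS (hx i hi)) _ (hS (hx j hj)) ρ hρ hρ0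
          have h3 := mul_le_mul_of_nonneg_left h2
            (mul_nonneg (mul_nonneg (hw i hi) (hw j hj)) (hq0 i j))
          refine h3.trans (le_of_eq ?_)
          rw [neg_add, Real.rpow_add (hmp i j)]
          simp only [hq]
          ring
      _ = C * ρ ^ (2 * b) * ∑ i ∈ V, ∑ j ∈ V,
            w i * w j * (max (dist (x i) (x j)) ρ) ^ (-(b + t)) := by
          rw [Finset.mul_sum]
          exact Finset.sum_congr rfl fun i _ => by rw [Finset.mul_sum]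
      _ ≤ _ := mul_le_mul_of_nonneg_left he1 (by positivity)
  have key := second_moment (μ := μ) hw hq0 hHm (a := a * ρ ^ b) (B := C * ρ ^ (2 * b) * E0)
    (Q := C * ρ ^ (2 * b) * E1) (by positivity) (by rw [hρ2]; positivity)
    (by rw [hρ2]; positivity) k1 k2 k3
  have e1 : (a * ρ ^ b) ^ 2 / (8 * (C * ρ ^ (2 * b) * E0)) = a ^ 2 / (8 * (C * E0)) := by
    rw [hρ2]
    field_simp
  rw [e1] at key
  refine key.trans (measureReal_mono ?_ (measure_ne_top _ _))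
  rintro ω ⟨g1, g2⟩
  show Good t ρ _ (NS G ρ S ω)
  refine good_of_energy_w hρ ht (by positivity) V (fun i => w i * ind (H i) ω) x
    (fun i hi => mul_nonneg (hw i hi) (ind_nonneg _ _)) ?_ ?_ ?_
  · have : 0 < tot V w H ω := lt_of_lt_of_le (by positivity) g1
    exact this
  · intro i hi h0
    refine ⟨hx i hi, ?_⟩
    by_contra hcon
    apply h0
    have : ind (H i) ω = 0 := by
      unfold ind
      exact Set.indicator_of_notMem (fun h => hcon h) (fun _ => (1 : ℝ))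
    simp only [this, mul_zero]
  · have e2 : ∑ i ∈ V, ∑ j ∈ V, w i * ind (H i) ω * (w j * ind (H j) ω) *
        (max (dist (x i) (x j)) ρ) ^ (-t) = ene V w q H ω := by
      unfold ene
      refine Finset.sum_congr rfl fun i _ => Finset.sum_congr rfl fun j _ => ?_
      rw [ind_inter]
      simp only [hq]
      ring
    rw [e2]
    refine g2.trans ?_
    have g3 : (a * ρ ^ b / 2) ^ 2 ≤ (tot V w H ω) ^ 2 := pow_le_pow_left₀ (by positivity) g1 2
    have e3 : 8 * (C * ρ ^ (2 * b) * E0) * (C * ρ ^ (2 * b) * E1) / (a * ρ ^ b) ^ 2 =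
        32 * C ^ 2 * E0 * E1 / a ^ 4 * (a * ρ ^ b / 2) ^ 2 := by
      rw [hρ2]
      field_simp
      ring
    rw [e3]
    exact mul_le_mul_of_nonneg_left g3 (by positivity)

/-- Positive content with positive probability. -/
theorem content_prob {μ : Measure Ω} [IsProbabilityMeasure μ] {G : Ω → ℂ → ℝ} {K0 S : Set ℂ}
    {b a C ρ0 t E0 E1 : ℝ} (hB : Bds μ G K0 b a C ρ0) (ha : 0 < a) (hC : 0 < C) (hE0 : 0 < E0)
    (hE1 : 0 < E1) (hρ0 : 0 < ρ0) (ht : 0 ≤ t) (hS : S ⊆ K0) (hSc : IsCompact S)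
    (hW : ∀ ρ, 0 < ρ → ρ ≤ ρ0 → Wt S b t E0 E1 ρ) :
    a ^ 2 / (8 * (C * E0)) ≤
      μ.real {ω | Content t (2 ^ (-t) / (32 * C ^ 2 * E0 * E1 / a ^ 4)) (NS G 0 S ω)} := by
  set c' := 2 ^ (-t) / (32 * C ^ 2 * E0 * E1 / a ^ 4) with hc'
  set ρ : ℕ → ℝ := fun n => ρ0 / ((n : ℝ) + 1) with hρdef
  have hρpos : ∀ n, 0 < ρ n := fun n => by simp only [hρdef]; positivity
  have hρle : ∀ n, ρ n ≤ ρ0 := fun n => by
    simp only [hρdef]
    rw [div_le_iff₀ (by positivity)]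
    have : (0 : ℝ) ≤ n := Nat.cast_nonneg n
    nlinarith
  have hρa : Antitone ρ := by
    intro m n hmn
    simp only [hρdef]
    apply div_le_div_of_nonneg_left hρ0.le (by positivity)
    have : (m : ℝ) ≤ n := by exact_mod_cast hmn
    linarith
  have hρlim : Tendsto ρ atTop (𝓝 0) := by
    have h1 := tendsto_one_div_add_atTop_nhds_zero_nat (𝕜 := ℝ)
    have h2 := h1.const_mul ρ0
    rw [mul_zero] at h2
    refine h2.congr fun n => ?_
    simp only [hρdef]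
    ring
  set A : ℕ → Set Ω := fun n => {ω | Good t (ρ n) c' (NS G (ρ n) S ω)} with hA
  have hAcl : ∀ n, IsClosed (A n) := fun n =>
    isClosed_good_of fun O hO => isOpen_NS_sub hB.cont hSc hO
  have hAanti : Antitone A := by
    intro m n hmn ω hω
    exact Good.anti hω (hρa hmn) (NS_mono G (hρa hmn) S ω)
  have h1 : Tendsto (fun n => μ (A n)) atTop (𝓝 (μ (⋂ n, A n))) :=
    tendsto_measure_iInter_atTop (fun n => (hAcl n).measurableSet.nullMeasurableSet) hAanti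
      ⟨0, measure_ne_top _ _⟩
  have h2 : Tendsto (fun n => μ.real (A n)) atTop (𝓝 (μ.real (⋂ n, A n))) :=
    (ENNReal.tendsto_toReal (measure_ne_top _ _)).comp h1
  have h3 : a ^ 2 / (8 * (C * E0)) ≤ μ.real (⋂ n, A n) :=
    ge_of_tendsto' h2 fun n =>
      good_prob hB ha hC hE0 hE1 ht hS hSc (hρpos n) (hρle n) (hW _ (hρpos n) (hρle n))
  refine h3.trans (measureReal_mono ?_ (measure_ne_top _ _))
  intro ω hω
  rw [mem_iInter] at hω
  exact content_zero hB.cont hSc ω hρlim hρa hω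

end Pool.Agent.Zk33.HF
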