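import Mathlib

/-!
Definitions: Hausdorff content of a plane set, discrete measures with bounded energy.
-/

set_option autoImplicit false

namespace Pool.Agent.Zk33.HF

open Metric Set

/-- Every finite cover of `K` by discs has `∑ r ^ t ≥ c`. -/
def Content (t c : ℝ) (K : Set ℂ) : Prop :=
  ∀ s : Finset (ℂ × ℝ), (∀ p ∈ s, 0 < p.2) → K ⊆ ⋃ p ∈ s, ball p.1 p.2 → c ≤ ∑ p ∈ s, p.2 ^ t

/-- A probability measure on finitely many points of `S` with bounded energies at scale `ρ`. -/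
def Wt (S : Set ℂ) (b t E0 E1 ρ : ℝ) : Prop :=
  ∃ (V : Finset (ℤ × ℤ)) (w : ℤ × ℤ → ℝ) (x : ℤ × ℤ → ℂ), (∀ i ∈ V, 0 ≤ w i) ∧ (∀ i ∈ V, x i ∈ S) ∧
    ∑ i ∈ V, w i = 1 ∧
    ∑ i ∈ V, ∑ j ∈ V, w i * w j * (max (dist (x i) (x j)) ρ) ^ (-b) ≤ E0 ∧
    ∑ i ∈ V, ∑ j ∈ V, w i * w j * (max (dist (x i) (x j)) ρ) ^ (-(b + t)) ≤ E1

end Pool.Agent.Zk33.HF
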