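import Pool.Agent.H389R2.Dim.Lower
import Pool.Agent.Zk33.HF.Defs

/-!
Hausdorff content: closedness, energy, dimension.
-/

set_option autoImplicit false

namespace Pool.Agent.Zk33.HF

open MeasureTheory Metric Set Filter Topology Pool.Agent.H389R2.Dim
open scoped ENNReal NNReal

theorem Content.mono {t c : ℝ} {K K' : Set ℂ} (h : Content t c K) (hK : K ⊆ K') :
    Content t c K' := fun s hs hc => h s hs (hK.trans hc)

theorem Content.le {t c c' : ℝ} {K : Set ℂ} (h : Content t c K) (hc : c' ≤ c) :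
    Content t c' K := fun s hs hcov => hc.trans (h s hs hcov)

theorem content_iff {t c : ℝ} {K : Set ℂ} :
    Content t c K ↔ ∀ δ : ℝ, 0 < δ → Good t δ c K := by
  constructor
  · intro h δ hδ s hs hcov
    exact h s (fun p hp => hδ.trans_le (hs p hp)) hcov
  · intro h s hs hcov
    rcases s.eq_empty_or_nonempty with rfl | hne
    · exact h 1 one_pos ∅ (by simp) hcov
    · refine h (s.inf' hne fun p => p.2) ?_ s (fun p hp => Finset.inf'_le _ hp) hcov
      rw [Finset.lt_inf'_iff]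
      exact hs

theorem le_dimH_of_content {t c : ℝ} (ht : 0 < t) (hc : 0 < c) {K : Set ℂ} (hK : IsCompact K)
    (h : Content t c K) : ENNReal.ofReal t ≤ dimH K :=
  le_dimH_of_good ht hc hK (content_iff.1 h)

theorem nonempty_of_content {t c : ℝ} (hc : 0 < c) {K : Set ℂ} (h : Content t c K) :
    K.Nonempty := by
  by_contra hcon
  rw [not_nonempty_iff_eq_empty] at hcon
  have h1 := h ∅ (by simp) (by rw [hcon]; exact empty_subset _)
  simp at h1
  linarith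

theorem ediam_ball_le' {z : ℂ} {r : ℝ} (_hr : 0 ≤ r) :
    ediam (ball z r) ≤ ENNReal.ofReal (2 * r) := by
  refine Metric.ediam_le_of_forall_dist_le fun x hx y hy => ?_
  have h1 := mem_ball.1 hx
  have h2 := mem_ball.1 hy
  have h3 := dist_triangle_right x y z
  linarith

/-- A compact set of large dimension has positive content. -/
theorem content_of_lt_dimH {K : Set ℂ} {s : ℝ} (hs : 0 < s)
    (h : ENNReal.ofReal s < dimH K) : ∃ c : ℝ, 0 < c ∧ Content s c K := by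
  by_contra hcon
  push Not at hcon
  have hcov : ∀ n : ℕ, ∃ S : Finset (ℂ × ℝ), (∀ p ∈ S, 0 < p.2) ∧
      K ⊆ ⋃ p ∈ S, ball p.1 p.2 ∧ ∑ p ∈ S, p.2 ^ s < 1 / ((n : ℝ) + 1) := by
    intro n
    have h1 := hcon (1 / ((n : ℝ) + 1)) (by positivity)
    unfold Content at h1
    push Not at h1
    obtain ⟨S, h2, h3, h4⟩ := h1
    exact ⟨S, h2, h3, h4⟩
  choose S hS1 hS2 hS3 using hcov
  have hdt : ((s.toNNReal : ℝ≥0) : ℝ) = s := Real.coe_toNNReal s hs.le
  have hne : μH[((s.toNNReal : ℝ≥0) : ℝ)] K = ⊤ := by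
    apply hausdorffMeasure_of_lt_dimH
    exact h
  rw [hdt] at hne
  have hr : Tendsto (fun n : ℕ => ENNReal.ofReal (2 * (1 / ((n : ℝ) + 1)) ^ (1 / s))) atTop
      (𝓝 0) := by
    have h1 : Tendsto (fun n : ℕ => 2 * (1 / ((n : ℝ) + 1)) ^ (1 / s)) atTop (𝓝 0) := by
      have h2 : Tendsto (fun n : ℕ => 1 / ((n : ℝ) + 1)) atTop (𝓝 0) :=
        tendsto_one_div_add_atTop_nhds_zero_nat
      have h3 := (h2.rpow_const (p := 1 / s) (Or.inr (by positivity))).const_mul 2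
      rwa [Real.zero_rpow (by positivity), mul_zero] at h3
    have h4 := ENNReal.tendsto_ofReal h1
    rwa [ENNReal.ofReal_zero] at h4
  set U : ∀ n : ℕ, {p // p ∈ S n} → Set ℂ := fun n i => ball i.1.1 i.1.2 with hU
  have hdi : ∀ n : ℕ, ∀ i : {p // p ∈ S n},
      ediam (U n i) ≤ ENNReal.ofReal (2 * (1 / ((n : ℝ) + 1)) ^ (1 / s)) := by
    intro n i
    have hi := hS1 n i.1 i.2
    have h1 : i.1.2 ^ s ≤ 1 / ((n : ℝ) + 1) := by
      refine le_trans ?_ (hS3 n).le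
      exact Finset.single_le_sum (f := fun p : ℂ × ℝ => p.2 ^ s)
        (fun p hp => Real.rpow_nonneg (hS1 n p hp).le _) i.2
    have h2 : i.1.2 ≤ (1 / ((n : ℝ) + 1)) ^ (1 / s) := by
      have h3 := Real.rpow_le_rpow (Real.rpow_nonneg hi.le _) h1 (z := 1 / s) (by positivity)
      rwa [← Real.rpow_mul hi.le, mul_one_div_cancel hs.ne', Real.rpow_one] at h3
    refine (ediam_ball_le' hi.le).trans ?_
    gcongr
  have hcv : ∀ n : ℕ, K ⊆ ⋃ i, U n i := by
    intro n z hz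
    obtain ⟨p, hp, hzp⟩ := mem_iUnion₂.1 (hS2 n hz)
    exact mem_iUnion.2 ⟨⟨p, hp⟩, hzp⟩
  have hle := Measure.hausdorffMeasure_le_liminf_sum (X := ℂ) (ι := fun n : ℕ => {p // p ∈ S n})
    s K (l := atTop) _ hr U (Eventually.of_forall hdi) (Eventually.of_forall hcv)
  have hle2 : ∀ n : ℕ, ∑ i : {p // p ∈ S n}, ediam (U n i) ^ s ≤ ENNReal.ofReal (2 ^ s) := by
    intro n
    have h1 : ∀ i : {p // p ∈ S n}, ediam (U n i) ^ s ≤ ENNReal.ofReal (2 ^ s * i.1.2 ^ s) := by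
      intro i
      have hi := hS1 n i.1 i.2
      have h2 : ediam (U n i) ≤ ENNReal.ofReal (2 * i.1.2) := ediam_ball_le' hi.le
      calc ediam (U n i) ^ s ≤ ENNReal.ofReal (2 * i.1.2) ^ s := ENNReal.rpow_le_rpow h2 hs.le
        _ = ENNReal.ofReal (2 ^ s * i.1.2 ^ s) := by
            rw [ENNReal.ofReal_rpow_of_pos (by positivity),
              Real.mul_rpow (by norm_num) hi.le]
    calc ∑ i : {p // p ∈ S n}, ediam (U n i) ^ s
        ≤ ∑ i : {p // p ∈ S n}, ENNReal.ofReal (2 ^ s * i.1.2 ^ s) :=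
          Finset.sum_le_sum fun i _ => h1 i
      _ = ENNReal.ofReal (∑ i : {p // p ∈ S n}, 2 ^ s * i.1.2 ^ s) := by
          rw [ENNReal.ofReal_sum_of_nonneg]
          intro i _
          have := Real.rpow_nonneg (hS1 n i.1 i.2).le s
          positivity
      _ ≤ ENNReal.ofReal (2 ^ s) := by
          apply ENNReal.ofReal_le_ofReal
          rw [← Finset.mul_sum]
          have h3 : ∑ i : {p // p ∈ S n}, i.1.2 ^ s = ∑ p ∈ S n, p.2 ^ s :=
            Finset.sum_coe_sort (S n) fun p : ℂ × ℝ => p.2 ^ s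
          rw [h3]
          have h4 : ∑ p ∈ S n, p.2 ^ s ≤ 1 := by
            refine (hS3 n).le.trans ?_
            rw [div_le_one (by positivity)]
            have : (0 : ℝ) ≤ n := Nat.cast_nonneg n
            linarith
          have h5 : (0 : ℝ) < 2 ^ s := by positivity
          nlinarith
  have h5 : liminf (fun n : ℕ => ∑ i : {p // p ∈ S n}, ediam (U n i) ^ s) atTop ≤
      ENNReal.ofReal (2 ^ s) :=
    liminf_le_of_frequently_le (Frequently.of_forall hle2)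
  rw [hne] at hle
  exact absurd (hle.trans h5) (by simp)

/-- Weighted version of `good_of_energy`. -/
theorem good_of_energy_w {ι : Type*} {t δ E : ℝ} (hδ : 0 < δ) (ht : 0 ≤ t) (hE : 0 < E)
    {K : Set ℂ} (V : Finset ι) (w : ι → ℝ) (x : ι → ℂ) (hw : ∀ i ∈ V, 0 ≤ w i)
    (hm : 0 < ∑ i ∈ V, w i) (hxK : ∀ i ∈ V, w i ≠ 0 → x i ∈ K)
    (h : ∑ i ∈ V, ∑ j ∈ V, w i * w j * (max (dist (x i) (x j)) δ) ^ (-t) ≤
      E * (∑ i ∈ V, w i) ^ 2) :
    Good t δ (2 ^ (-t) / E) K := by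
  classical
  intro s hs hcov
  set V' := V.filter fun i => w i ≠ 0 with hV'
  have hpos : ∀ p ∈ s, 0 < p.2 := fun p hp => lt_of_lt_of_le hδ (hs p hp)
  have h1 : ∀ i ∈ V', ∃ p ∈ s, x i ∈ ball p.1 p.2 := by
    intro i hi
    rw [hV', Finset.mem_filter] at hi
    obtain ⟨p, hp, hxp⟩ := Set.mem_iUnion₂.mp (hcov (hxK i hi.1 hi.2))
    exact ⟨p, hp, hxp⟩
  choose! f hf1 hf2 using h1
  set N : ℂ × ℝ → ℝ := fun p => ∑ i ∈ V'.filter (fun i => f i = p), w i with hN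
  have hW : ∑ i ∈ V, w i = ∑ i ∈ V', w i := by
    rw [hV', Finset.sum_filter]
    refine Finset.sum_congr rfl fun i _ => ?_
    split_ifs with h0
    · rfl
    · exact not_not.1 h0
  have hwV' : ∀ i ∈ V', 0 ≤ w i := fun i hi => hw i (Finset.mem_filter.1 hi).1
  have h2 : ∑ i ∈ V', w i = ∑ p ∈ s, N p := by
    rw [hN]
    exact (Finset.sum_fiberwise_of_maps_to (g := f) (fun i hi => hf1 i hi) w).symm
  have hN0 : ∀ p, 0 ≤ N p := fun p => Finset.sum_nonneg fun i hi =>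
    hwV' i (Finset.mem_filter.1 hi).1
  have h3 : ∑ p ∈ s, N p ^ 2 * (2 * p.2) ^ (-t) ≤ E * (∑ i ∈ V, w i) ^ 2 := by
    refine le_trans ?_ h
    have h4 : ∀ p ∈ s, N p ^ 2 * (2 * p.2) ^ (-t) ≤
        ∑ i ∈ V'.filter (fun i => f i = p), ∑ j ∈ V', w i * w j *
          (max (dist (x i) (x j)) δ) ^ (-t) := by
      intro p hp
      have e1 : N p ^ 2 * (2 * p.2) ^ (-t) = ∑ i ∈ V'.filter (fun i => f i = p),
          ∑ j ∈ V'.filter (fun j => f j = p), w i * w j * (2 * p.2) ^ (-t) := by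
        rw [hN, sq, Finset.sum_mul_sum, Finset.sum_mul]
        refine Finset.sum_congr rfl fun i _ => ?_
        rw [Finset.sum_mul]
      rw [e1]
      refine Finset.sum_le_sum fun i hi => ?_
      rw [Finset.mem_filter] at hi
      have h6 : ∑ j ∈ V'.filter (fun j => f j = p), w i * w j * (2 * p.2) ^ (-t) ≤
          ∑ j ∈ V'.filter (fun j => f j = p), w i * w j * (max (dist (x i) (x j)) δ) ^ (-t) := by
        apply Finset.sum_le_sum
        intro j hj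
        rw [Finset.mem_filter] at hj
        have hx2 := hf2 i hi.1
        have hy2 := hf2 j hj.1
        rw [hi.2, mem_ball] at hx2
        rw [hj.2, mem_ball] at hy2
        have h7 : dist (x i) (x j) ≤ 2 * p.2 := by
          have := dist_triangle_right (x i) (x j) p.1
          linarith
        have h8 : max (dist (x i) (x j)) δ ≤ 2 * p.2 :=
          max_le h7 (by linarith [hs p hp, hpos p hp])
        refine mul_le_mul_of_nonneg_left ?_ (mul_nonneg (hwV' i hi.1) (hwV' j hj.1))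
        exact Real.rpow_le_rpow_of_nonpos (lt_of_lt_of_le hδ (le_max_right _ _)) h8 (by linarith)
      refine h6.trans (Finset.sum_le_sum_of_subset_of_nonneg (Finset.filter_subset _ _) ?_)
      intro j hj _
      exact mul_nonneg (mul_nonneg (hwV' i hi.1) (hwV' j hj)) (by positivity)
    refine (Finset.sum_le_sum h4).trans ?_
    rw [Finset.sum_fiberwise_of_maps_to (g := f) (fun i hi => hf1 i hi)
      (fun i => ∑ j ∈ V', w i * w j * (max (dist (x i) (x j)) δ) ^ (-t))]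
    have h5 : ∀ i ∈ V', ∑ j ∈ V', w i * w j * (max (dist (x i) (x j)) δ) ^ (-t) ≤
        ∑ j ∈ V, w i * w j * (max (dist (x i) (x j)) δ) ^ (-t) := by
      intro i hi
      refine Finset.sum_le_sum_of_subset_of_nonneg (Finset.filter_subset _ _) ?_
      intro j hj _
      exact mul_nonneg (mul_nonneg (hwV' i hi) (hw j hj)) (by positivity)
    refine (Finset.sum_le_sum h5).trans ?_
    refine Finset.sum_le_sum_of_subset_of_nonneg (Finset.filter_subset _ _) ?_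
    intro i hi _
    exact Finset.sum_nonneg fun j hj =>
      mul_nonneg (mul_nonneg (hw i hi) (hw j hj)) (by positivity)
  -- Cauchy-Schwarz
  have h9 : (∑ p ∈ s, N p) ^ 2 ≤ (∑ p ∈ s, N p ^ 2 * (2 * p.2) ^ (-t)) *
      ∑ p ∈ s, (2 * p.2) ^ t := by
    have h10 := Finset.sum_mul_sq_le_sq_mul_sq s
      (fun p => N p * (2 * p.2) ^ (-t / 2)) (fun p => (2 * p.2) ^ (t / 2))
    have e1 : ∑ p ∈ s, N p * (2 * p.2) ^ (-t / 2) * (2 * p.2) ^ (t / 2) = ∑ p ∈ s, N p := by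
      refine Finset.sum_congr rfl fun p hp => ?_
      have := hpos p hp
      rw [mul_assoc, ← Real.rpow_add (by positivity)]
      rw [show -t / 2 + t / 2 = 0 by ring, Real.rpow_zero, mul_one]
    have e2 : ∑ p ∈ s, (N p * (2 * p.2) ^ (-t / 2)) ^ 2 =
        ∑ p ∈ s, N p ^ 2 * (2 * p.2) ^ (-t) := by
      refine Finset.sum_congr rfl fun p hp => ?_
      have := hpos p hp
      rw [mul_pow, ← Real.rpow_natCast ((2 * p.2) ^ (-t / 2)) 2, ← Real.rpow_mul (by positivity)]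
      congr 2
      push_cast
      ring
    have e3 : ∑ p ∈ s, ((2 * p.2) ^ (t / 2)) ^ 2 = ∑ p ∈ s, (2 * p.2) ^ t := by
      refine Finset.sum_congr rfl fun p hp => ?_
      have := hpos p hp
      rw [← Real.rpow_natCast ((2 * p.2) ^ (t / 2)) 2, ← Real.rpow_mul (by positivity)]
      congr 1
      push_cast
      ring
    rw [e1, e2, e3] at h10
    exact h10
  have h11 : ∑ p ∈ s, (2 * p.2) ^ t = 2 ^ t * ∑ p ∈ s, p.2 ^ t := by
    rw [Finset.mul_sum]
    refine Finset.sum_congr rfl fun p hp => ?_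
    rw [Real.mul_rpow (by norm_num) (hpos p hp).le]
  have hT0 : 0 ≤ ∑ p ∈ s, p.2 ^ t := Finset.sum_nonneg fun p hp => Real.rpow_nonneg (hpos p hp).le _
  rw [← h2, ← hW, h11] at h9
  have h12 : (∑ i ∈ V, w i) ^ 2 ≤ E * (∑ i ∈ V, w i) ^ 2 * (2 ^ t * ∑ p ∈ s, p.2 ^ t) :=
    h9.trans (mul_le_mul_of_nonneg_right h3 (by positivity))
  have hW2 : 0 < (∑ i ∈ V, w i) ^ 2 := by positivity
  have h13 : 1 ≤ E * (2 ^ t * ∑ p ∈ s, p.2 ^ t) := by
    by_contra hcon
    rw [not_le] at hcon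
    have : E * (∑ i ∈ V, w i) ^ 2 * (2 ^ t * ∑ p ∈ s, p.2 ^ t) < (∑ i ∈ V, w i) ^ 2 := by
      calc E * (∑ i ∈ V, w i) ^ 2 * (2 ^ t * ∑ p ∈ s, p.2 ^ t) =
            (∑ i ∈ V, w i) ^ 2 * (E * (2 ^ t * ∑ p ∈ s, p.2 ^ t)) := by ring
        _ < (∑ i ∈ V, w i) ^ 2 * 1 := mul_lt_mul_of_pos_left hcon hW2
        _ = _ := mul_one _
    linarith
  rw [div_le_iff₀ hE, Real.rpow_neg (by norm_num)]
  have h14 : (0 : ℝ) < 2 ^ t := by positivity
  rw [inv_le_iff_one_le_mul₀ h14]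
  calc (1 : ℝ) ≤ E * (2 ^ t * ∑ p ∈ s, p.2 ^ t) := h13
    _ = _ := by ring

/-- Closedness. -/
theorem isClosed_good_of {Y : Type*} [TopologicalSpace Y] {t δ c : ℝ} {A : Y → Set ℂ}
    (hA : ∀ O : Set ℂ, IsOpen O → IsOpen {y | A y ⊆ O}) : IsClosed {y | Good t δ c (A y)} := by
  have h : {y | Good t δ c (A y)} =
      ⋂ s : Finset (ℂ × ℝ), {y | (∀ p ∈ s, δ ≤ p.2) →
        A y ⊆ ⋃ p ∈ s, ball p.1 p.2 → c ≤ ∑ p ∈ s, p.2 ^ t} := by
    ext K; simp [Good]
  rw [h]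
  apply isClosed_iInter
  intro s
  by_cases h1 : (∀ p ∈ s, δ ≤ p.2) ∧ ¬ c ≤ ∑ p ∈ s, p.2 ^ t
  · have h2 : {y | (∀ p ∈ s, δ ≤ p.2) →
        A y ⊆ ⋃ p ∈ s, ball p.1 p.2 → c ≤ ∑ p ∈ s, p.2 ^ t} =
        {y | A y ⊆ ⋃ p ∈ s, ball p.1 p.2}ᶜ := by
      ext K
      simp only [Set.mem_ofPred_eq, Set.mem_compl_iff]
      constructor
      · intro h3 h4; exact h1.2 (h3 h1.1 h4)
      · intro h3 _ h4; exact absurd h4 h3
    rw [h2]
    exact (hA _ (isOpen_biUnion fun p _ => isOpen_ball)).isClosed_compl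
  · have h2 : {y | (∀ p ∈ s, δ ≤ p.2) →
        A y ⊆ ⋃ p ∈ s, ball p.1 p.2 → c ≤ ∑ p ∈ s, p.2 ^ t} = univ := by
      ext K
      simp only [Set.mem_ofPred_eq, Set.mem_univ, iff_true]
      intro h3 _
      by_contra h4
      exact h1 ⟨h3, h4⟩
    rw [h2]; exact isClosed_univ

theorem isClosed_content_of {Y : Type*} [TopologicalSpace Y] {t c : ℝ} {A : Y → Set ℂ}
    (hA : ∀ O : Set ℂ, IsOpen O → IsOpen {y | A y ⊆ O}) : IsClosed {y | Content t c (A y)} := by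
  have h : {y | Content t c (A y)} = ⋂ δ : ℝ, ⋂ _ : 0 < δ, {y | Good t δ c (A y)} := by
    ext y
    simp only [Set.mem_ofPred_eq, Set.mem_iInter, content_iff]
  rw [h]
  exact isClosed_iInter fun δ => isClosed_iInter fun _ => isClosed_good_of hA

/-- The points of `S` where `G ω` is at most `ε`. -/
def NS {Ω : Type*} (G : Ω → ℂ → ℝ) (ε : ℝ) (S : Set ℂ) (ω : Ω) : Set ℂ :=
  {z | z ∈ S ∧ G ω z ≤ ε}

theorem NS_mono {Ω : Type*} (G : Ω → ℂ → ℝ) {ε ε' : ℝ} (h : ε ≤ ε') (S : Set ℂ) (ω : Ω) :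
    NS G ε S ω ⊆ NS G ε' S ω := fun _ ⟨hz, hs⟩ => ⟨hz, hs.trans h⟩

theorem isOpen_NS_sub {Ω : Type*} [TopologicalSpace Ω] {G : Ω → ℂ → ℝ}
    (hG : Continuous fun p : Ω × ℂ => G p.1 p.2) {ε : ℝ} {B O : Set ℂ} (hB : IsCompact B)
    (hO : IsOpen O) : IsOpen {ω | NS G ε B ω ⊆ O} := by
  have hK : IsCompact (B \ O) := hB.diff hO
  have : CompactSpace ↥(B \ O) := isCompact_iff_compactSpace.1 hK
  have hcl : IsClosed {p : Ω × ↥(B \ O) | G p.1 (p.2 : ℂ) ≤ ε} := by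
    refine isClosed_le ?_ continuous_const
    exact hG.comp (continuous_fst.prodMk (continuous_subtype_val.comp continuous_snd))
  have h2 := isClosedMap_fst_of_compactSpace _ hcl
  have h3 : {ω | NS G ε B ω ⊆ O}ᶜ = Prod.fst ''
      {p : Ω × ↥(B \ O) | G p.1 (p.2 : ℂ) ≤ ε} := by
    ext ω
    simp only [mem_compl_iff, mem_ofPred_eq, not_subset, mem_image, Prod.exists]
    constructor
    · rintro ⟨z, ⟨hz, h1⟩, hzO⟩
      exact ⟨ω, ⟨z, hz, hzO⟩, h1, rfl⟩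
    · rintro ⟨g, ⟨z, hz, hzO⟩, h1, rfl⟩
      exact ⟨z, ⟨hz, h1⟩, hzO⟩
  rw [← isClosed_compl_iff, h3]
  exact h2

/-- Passing to `ε = 0`. -/
theorem content_zero {Ω : Type*} [TopologicalSpace Ω] {G : Ω → ℂ → ℝ}
    (hG : Continuous fun p : Ω × ℂ => G p.1 p.2) {t c : ℝ} {B : Set ℂ} (hB : IsCompact B) (ω : Ω)
    {ρ : ℕ → ℝ} (hρ : Tendsto ρ atTop (𝓝 0)) (hρa : Antitone ρ)
    (h : ∀ n : ℕ, Good t (ρ n) c (NS G (ρ n) B ω)) : Content t c (NS G 0 B ω) := by
  intro s hs hcov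
  set O : Set ℂ := ⋃ p ∈ s, ball p.1 p.2 with hOdef
  have hO : IsOpen O := isOpen_biUnion fun p _ => isOpen_ball
  by_contra hcon
  -- the radii are larger than `ρ n` for large `n`
  obtain ⟨n0, hn0⟩ : ∃ n0 : ℕ, ∀ n, n0 ≤ n → ∀ p ∈ s, ρ n ≤ p.2 := by
    have h1 : ∀ p ∈ s, ∀ᶠ n in atTop, ρ n ≤ p.2 := fun p hp =>
      ((tendsto_order.1 hρ).2 _ (hs p hp)).mono fun n hn => hn.le
    have h2 := (Finset.eventually_all s).2 h1
    obtain ⟨n0, hn0⟩ := eventually_atTop.1 h2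
    exact ⟨n0, fun n hn p hp => hn0 n hn p hp⟩
  have hne : ∀ n : ℕ, (NS G (ρ n) (B \ O) ω).Nonempty := by
    intro n
    by_contra hemp
    apply hcon
    apply h (max n n0) s (hn0 _ (le_max_right _ _))
    rintro z ⟨hz, hh⟩
    by_contra hzO
    exact hemp ⟨z, NS_mono G (hρa (le_max_left n n0)) _ _ ⟨⟨hz, hzO⟩, hh⟩⟩
  have hK : IsCompact (B \ O) := hB.diff hO
  have : CompactSpace ↥(B \ O) := isCompact_iff_compactSpace.1 hK
  have hc : Continuous (fun p : ↥(B \ O) => G ω (p : ℂ)) :=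
    hG.comp (continuous_const.prodMk continuous_subtype_val)
  let A : ℕ → Set ↥(B \ O) := fun n => {p | G ω (p : ℂ) ≤ ρ n}
  have hAcl : ∀ n, IsClosed (A n) := fun n => isClosed_le hc continuous_const
  have hAanti : ∀ n, A (n + 1) ⊆ A n := by
    intro n p hp
    exact le_trans (show G ω (p : ℂ) ≤ ρ (n + 1) from hp) (hρa (Nat.le_succ n))
  have hAne : ∀ n, (A n).Nonempty := by
    intro n
    obtain ⟨z, hz, h1⟩ := hne n
    exact ⟨⟨z, hz⟩, h1⟩
  obtain ⟨p, hp⟩ := IsCompact.nonempty_iInter_of_sequence_nonempty_isCompact_isClosed A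
    hAanti hAne (hAcl 0).isCompact hAcl
  rw [mem_iInter] at hp
  have h5 : G ω (p : ℂ) ≤ 0 := ge_of_tendsto' hρ fun n => hp n
  exact p.2.2 (hcov ⟨p.2.1, h5⟩)

theorem Good.anti {t δ δ' c : ℝ} {K K' : Set ℂ} (h : Good t δ c K) (hδ : δ ≤ δ') (hK : K ⊆ K') :
    Good t δ' c K' := fun s hs hc => h s (fun p hp => hδ.trans (hs p hp)) (hK.trans hc)

end Pool.Agent.Zk33.HF
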