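import Pool.Agent.Zk33.HF.TwoBox
import Pool.Agent.Zk33.HF.Abs
import Pool.Agent.H443R3.BT.Fin

/-!
Upper bounds for the scaling limits of the exploration path.
-/

set_option autoImplicit false

namespace Pool.Agent.Zk33.HF

open H974 H984N Finset H342P H984P MeasureTheory Filter Topology Metric TopologicalSpace
open scoped ENNReal NNReal

/-- Distance of `z` to the range of the curve. -/
noncomputable def Gd (p : X) (z : ℂ) : ℝ := infDist z (Set.range p.1)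

theorem Gd_cont : Continuous fun q : X × ℂ => Gd q.1 q.2 := by
  have h : Continuous fun q : X × ℂ => (q.2, H443B.rgX q.1) :=
    continuous_snd.prodMk (H443B.rgX_cont.comp continuous_fst)
  exact (Metric.lipschitz_infDist (α := ℂ)).continuous.comp h

theorem Gd_nonneg (p : X) (z : ℂ) : 0 ≤ Gd p z := infDist_nonneg

theorem Gd_lt_iff {p : X} {z : ℂ} {r : ℝ} : Gd p z < r ↔ ∃ u, dist (p.1 u) z < r := by
  unfold Gd
  rw [infDist_lt_iff (Set.range_nonempty _)]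
  constructor
  · rintro ⟨_, ⟨u, rfl⟩, h⟩
    exact ⟨u, by rwa [dist_comm]⟩
  · rintro ⟨u, h⟩
    exact ⟨_, ⟨u, rfl⟩, by rwa [dist_comm]⟩

theorem Gd_le_iff {p : X} {z : ℂ} {r : ℝ} : Gd p z ≤ r ↔ ∃ u, dist (p.1 u) z ≤ r := by
  constructor
  · intro h
    obtain ⟨y, ⟨u, rfl⟩, hy⟩ := (isCompact_range p.1.continuous).exists_infDist_eq_dist
      (Set.range_nonempty _) z
    refine ⟨u, ?_⟩
    rw [dist_comm]
    unfold Gd at h
    linarith
  · rintro ⟨u, h⟩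
    refine le_trans (infDist_le_dist_of_mem ⟨u, rfl⟩) ?_
    rwa [dist_comm]

theorem Gd_eq_zero_iff {p : X} {z : ℂ} : Gd p z ≤ 0 ↔ z ∈ Set.range p.1 := by
  rw [Gd_le_iff]
  constructor
  · rintro ⟨u, h⟩
    exact ⟨u, dist_le_zero.1 h⟩
  · rintro ⟨u, h⟩
    exact ⟨u, dist_le_zero.2 h⟩

/-- The lattice vertex next to `z`. -/
noncomputable def vx (δ : ℝ) (z : ℂ) : Vtx := (⌊z.re / δ⌋, ⌊z.im / δ⌋ - 1)

theorem vb_of_near (R : Rect) {δ ρ : ℝ} (hδ : 0 < δ) {F : Finset Edg} {z : ℂ} {k : ℕ}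
    (hk : ρ / δ + 2 ≤ k) (u : unitInterval) (h : dist (R.curve δ F u) z < ρ) :
    VB (R.dm δ) (vx δ z) k F := by
  have hst : ∀ j < (R.dm δ).len F, dist (pos δ ((R.dm δ).walk F j))
      (pos δ ((R.dm δ).walk F (j + 1))) ≤ δ / 2 := by
    intro j _
    rw [clu_walk_succ]
    exact pos_nxt hδ.le _ _
  obtain ⟨j, hj, hd⟩ := pl_close (by positivity : (0:ℝ) ≤ δ / 2) hst u
  refine ⟨(R.dm δ).walk F j, ⟨j, hj, rfl⟩, ?_⟩
  generalize hσ : (R.dm δ).walk F j = σ at hd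
  have h1 : dist (pos δ σ) z < ρ + δ / 2 := by
    have h2 := dist_triangle_left (pos δ σ) z (R.curve δ F u)
    have h3 : dist (R.curve δ F u) (pos δ σ) ≤ δ / 2 := hd
    linarith
  have hre := (ML.le_dist_re (pos δ σ) z).trans_lt h1
  have him := (ML.le_dist_im (pos δ σ) z).trans_lt h1
  rw [ML.pos_re, abs_lt] at hre
  rw [ML.pos_im, abs_lt] at him
  have qx := abs_le.1 (ML.qx_le σ.2)
  have qy := abs_le.1 (ML.qy_le σ.2)
  have fre := Int.floor_le (z.re / δ)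
  have fre' := Int.lt_floor_add_one (z.re / δ)
  have fim := Int.floor_le (z.im / δ)
  have fim' := Int.lt_floor_add_one (z.im / δ)
  have ere : z.re = δ * (z.re / δ) := by field_simp
  have eim : z.im = δ * (z.im / δ) := by field_simp
  have eρ : ρ = δ * (ρ / δ) := by field_simp
  have a1 : (σ.1.1 : ℝ) < z.re / δ + (ρ / δ + 1) := by
    by_contra hcon
    have := mul_le_mul_of_nonneg_left (not_lt.1 hcon) hδ.le
    have h5 := mul_le_mul_of_nonneg_left qx.1 hδ.le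
    nlinarith
  have a2 : z.re / δ - (ρ / δ + 1) < (σ.1.1 : ℝ) := by
    by_contra hcon
    have := mul_le_mul_of_nonneg_left (not_lt.1 hcon) hδ.le
    have h5 := mul_le_mul_of_nonneg_left qx.2 hδ.le
    nlinarith
  have a3 : (σ.1.2 : ℝ) + 1 < z.im / δ + (ρ / δ + 1) := by
    by_contra hcon
    have := mul_le_mul_of_nonneg_left (not_lt.1 hcon) hδ.le
    have h5 := mul_le_mul_of_nonneg_left qy.1 hδ.le
    nlinarith
  have a4 : z.im / δ - (ρ / δ + 1) < (σ.1.2 : ℝ) + 1 := by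
    by_contra hcon
    have := mul_le_mul_of_nonneg_left (not_lt.1 hcon) hδ.le
    have h5 := mul_le_mul_of_nonneg_left qy.2 hδ.le
    nlinarith
  unfold inR vx
  have b1 : ((⌊z.re / δ⌋ : ℤ) : ℝ) - k ≤ σ.1.1 := by linarith
  have b2 : (σ.1.1 : ℝ) ≤ (⌊z.re / δ⌋ : ℤ) + k := by linarith
  have b3 : ((⌊z.im / δ⌋ : ℤ) : ℝ) - 1 - k ≤ σ.1.2 := by linarith
  have b4 : (σ.1.2 : ℝ) ≤ (⌊z.im / δ⌋ : ℤ) - 1 + k := by linarith
  refine ⟨⟨?_, ?_⟩, ?_, ?_⟩
  · exact_mod_cast b1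
  · exact_mod_cast b2
  · exact_mod_cast b3
  · exact_mod_cast b4

end Pool.Agent.Zk33.HF
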