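import Pool.Agent.Zk33.HF.LimA

/-!
Upper bounds for the scaling limits of the exploration path: passing to the limit.
-/

set_option autoImplicit false

namespace Pool.Agent.Zk33.HF

open H974 H984N Finset H342P H984P MeasureTheory Filter Topology Metric TopologicalSpace
open scoped ENNReal NNReal

/-- The points of the rectangle at distance at least `2 η` from the sides. -/
def Inn (R : Rect) (η : ℝ) (z : ℂ) : Prop :=
  (-R.A + 2 * η ≤ z.re ∧ z.re ≤ R.B - 2 * η) ∧ 2 * η ≤ z.im ∧ z.im ≤ R.H - 2 * η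

theorem bx_inn (R : Rect) {δ η : ℝ} (hδ : 0 < δ) (hη : 4 * δ ≤ η) {z : ℂ} (hz : Inn R η z)
    {d : ℕ} (hd : (d:ℝ) ≤ η / δ) : Bx (R.dm δ) (vx δ z) d := by
  obtain ⟨⟨h1, h2⟩, h3, h4⟩ := hz
  have q1 : (-R.A + 2 * η) / δ ≤ z.re / δ := div_le_div_of_nonneg_right h1 hδ.le
  have q2 : z.re / δ ≤ (R.B - 2 * η) / δ := div_le_div_of_nonneg_right h2 hδ.le
  have q3 : 2 * η / δ ≤ z.im / δ := div_le_div_of_nonneg_right h3 hδ.le
  have q4 : z.im / δ ≤ (R.H - 2 * η) / δ := div_le_div_of_nonneg_right h4 hδ.le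
  have q5 : 4 ≤ η / δ := by rw [le_div_iff₀ hδ]; linarith
  have e1 : (-R.A + 2 * η) / δ = -(R.A / δ) + 2 * (η / δ) := by ring
  have e2 : (R.B - 2 * η) / δ = R.B / δ - 2 * (η / δ) := by ring
  have e3 : 2 * η / δ = 2 * (η / δ) := by ring
  have e4 : (R.H - 2 * η) / δ = R.H / δ - 2 * (η / δ) := by ring
  rw [e1] at q1
  rw [e2] at q2
  rw [e3] at q3
  rw [e4] at q4
  have fre := Int.floor_le (z.re / δ)
  have fre' := Int.lt_floor_add_one (z.re / δ)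
  have fim := Int.floor_le (z.im / δ)
  have fim' := Int.lt_floor_add_one (z.im / δ)
  have fl : ((⌊-(R.A / δ)⌋ : ℤ) : ℝ) ≤ -(R.A / δ) := Int.floor_le _
  have cB : R.B / δ ≤ ((⌈R.B / δ⌉ : ℤ) : ℝ) := Int.le_ceil _
  have cH : R.H / δ ≤ ((⌈R.H / δ⌉ : ℤ) : ℝ) := Int.le_ceil _
  have b1 : ((⌊-(R.A / δ)⌋ : ℤ) : ℝ) + 1 ≤ (⌊z.re / δ⌋ : ℤ) - d := by linarith
  have b2 : ((⌊z.re / δ⌋ : ℤ) : ℝ) + d ≤ (⌈R.B / δ⌉ : ℤ) - 1 := by linarith
  have b3 : (0:ℝ) ≤ ((⌊z.im / δ⌋ : ℤ) : ℝ) - 1 - d := by linarith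
  have b4 : ((⌊z.im / δ⌋ : ℤ) : ℝ) - 1 + d ≤ (⌈R.H / δ⌉ : ℤ) - 2 := by linarith
  unfold Bx vx
  refine ⟨?_, ?_, ?_, ?_⟩
  · exact_mod_cast b1
  · exact_mod_cast b2
  · exact_mod_cast b3
  · exact_mod_cast b4

theorem cont_pair (z : ℂ) : Continuous fun p : X => ((p, z) : X × ℂ) := Continuous.prodMk_left z

theorem Gd_cont_comp (z : ℂ) :
    Continuous ((fun q : X × ℂ => Gd q.1 q.2) ∘ (fun p : X => ((p, z) : X × ℂ))) :=
  Continuous.comp Gd_cont (cont_pair z)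

theorem Gd_cont_left (z : ℂ) : Continuous (fun p : X => Gd p z) := Gd_cont_comp z

theorem open_lt (z : ℂ) (r : ℝ) : IsOpen {p : X | Gd p z < r} :=
  isOpen_lt (Gd_cont_left z) continuous_const

/-- Passing an upper bound to the limit. -/
theorem up_limit (R : Rect) {δ : ℕ → ℝ} {μ : ProbabilityMeasure X}
    (hμ : Tendsto (fun i => R.law (δ i)) atTop (𝓝 μ)) {z w : ℂ} {ρ : ℝ} (hρ : 0 < ρ) {B : ℝ}
    (hB : 0 ≤ B)
    (h : ∀ᶠ i in atTop, R.prob (δ i) (fun F => (∃ u, dist (R.curve (δ i) F u) z < 2 * ρ) ∧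
      ∃ u, dist (R.curve (δ i) F u) w < 2 * ρ) ≤ B) :
    (μ : Measure X).real ({p | Gd p z ≤ ρ} ∩ {p | Gd p w ≤ ρ}) ≤ B := by
  have hop : IsOpen ({p : X | Gd p z < 2 * ρ} ∩ {p : X | Gd p w < 2 * ρ}) :=
    (open_lt z _).inter (open_lt w _)
  have h1 := ProbabilityMeasure.le_liminf_measure_open_of_tendsto hμ hop
  have h4 : ∀ᶠ i in atTop, (R.law (δ i) : Measure X)
      ({p : X | Gd p z < 2 * ρ} ∩ {p : X | Gd p w < 2 * ρ}) ≤ ENNReal.ofReal B := by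
    filter_upwards [h] with i hi
    rw [R.law_apply _ hop.measurableSet]
    apply ENNReal.ofReal_le_ofReal
    refine le_trans (le_of_eq ?_) hi
    apply Pr_congr
    intro F _
    exact and_congr Gd_lt_iff Gd_lt_iff
  have h2 : (μ : Measure X) ({p : X | Gd p z < 2 * ρ} ∩ {p : X | Gd p w < 2 * ρ}) ≤
      ENNReal.ofReal B :=
    h1.trans (liminf_le_of_frequently_le h4.frequently)
  have h3 : ({p | Gd p z ≤ ρ} ∩ {p | Gd p w ≤ ρ} : Set X) ⊆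
      {p : X | Gd p z < 2 * ρ} ∩ {p : X | Gd p w < 2 * ρ} := by
    rintro p ⟨g1, g2⟩
    have g1' : Gd p z ≤ ρ := g1
    have g2' : Gd p w ≤ ρ := g2
    exact ⟨show Gd p z < 2 * ρ by linarith, show Gd p w < 2 * ρ by linarith⟩
  exact ENNReal.toReal_le_of_le_ofReal hB ((measure_mono h3).trans h2)

/-- The lattice scales belonging to the radius `ρ` and the distance `η`. -/
theorem scales {e ρ η : ℝ} (he : 0 < e) (hρ : 0 < ρ) (he2 : e ≤ ρ / 4) (hρη : ρ ≤ η / 400) :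
    ∃ k d : ℕ, 2 * ρ / e + 2 ≤ k ∧ ((k + 1 : ℕ) : ℝ) ≤ 3 * ρ / e ∧ (d:ℝ) ≤ η / e ∧
      η / (2 * e) ≤ d ∧ 64 * (k + 1) ≤ d ∧ 4 * e ≤ η := by
  have hη : 0 < η := by linarith
  have h4 : 4 ≤ ρ / e := by rw [le_div_iff₀ he]; linarith
  have h5 : 400 * (ρ / e) ≤ η / e := by
    rw [mul_div_assoc', div_le_div_iff_of_pos_right he]; linarith
  have e1 : 2 * ρ / e = 2 * (ρ / e) := by ring
  have e2 : 3 * ρ / e = 3 * (ρ / e) := by ring
  have e3 : η / (2 * e) = (η / e) / 2 := by field_simp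
  have c1 := Nat.le_ceil (2 * ρ / e)
  have c2 := Nat.ceil_lt_add_one (show 0 ≤ 2 * ρ / e by positivity)
  have f1 := Nat.floor_le (show 0 ≤ η / e by positivity)
  have f2 := Nat.lt_floor_add_one (η / e)
  have q1 : 2 * ρ / e + 2 ≤ ((⌈2 * ρ / e⌉₊ + 2 : ℕ) : ℝ) := by push_cast; linarith
  have q2 : ((⌈2 * ρ / e⌉₊ + 2 + 1 : ℕ) : ℝ) ≤ 3 * ρ / e := by
    push_cast
    rw [e1] at c2
    rw [e1, e2]
    linarith
  have q4 : η / (2 * e) ≤ ((⌊η / e⌋₊ : ℕ) : ℝ) := by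
    rw [e3]
    linarith
  refine ⟨⌈2 * ρ / e⌉₊ + 2, ⌊η / e⌋₊, q1, q2, f1, q4, ?_, by linarith⟩
  have h6 : ((64 * (⌈2 * ρ / e⌉₊ + 2 + 1) : ℕ) : ℝ) ≤ ((⌊η / e⌋₊ : ℕ) : ℝ) := by
    rw [e2] at q2
    push_cast at q2 ⊢
    linarith
  exact_mod_cast h6

end Pool.Agent.Zk33.HF
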