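import Pool.Agent.Zk33.HF.LimB

/-!
Upper bounds for the scaling limits of the exploration path: one disc.
-/

set_option autoImplicit false

namespace Pool.Agent.Zk33.HF

open H974 H984N Finset H342P H984P MeasureTheory Filter Topology Metric TopologicalSpace
open scoped ENNReal NNReal

/-- small meshes -/
theorem small_mesh {δ : ℕ → ℝ} (hlim : Tendsto δ atTop (𝓝 0)) {a b c : ℝ} (ha : 0 < a)
    (hb : 0 < b) (hc : 0 < c) : ∀ᶠ i in atTop, δ i < a ∧ δ i < b ∧ δ i < c :=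
  (hlim.eventually_lt_const ha).and
    ((hlim.eventually_lt_const hb).and (hlim.eventually_lt_const hc))

theorem near_bound {C : ℝ} (hC : 0 < C) (hA : AnnUp C) (R : Rect) {η : ℝ}
    {δ : ℕ → ℝ} (hδ : ∀ i, 0 < δ i) (hlim : Tendsto δ atTop (𝓝 0)) {μ : ProbabilityMeasure X}
    (hμ : Tendsto (fun i => R.law (δ i)) atTop (𝓝 μ)) {z w : ℂ} (hz : Inn R η z) {ρ : ℝ}
    (hρ : 0 < ρ) (hρη : ρ ≤ η / 400) :
    (μ : Measure X).real ({p | Gd p z ≤ ρ} ∩ {p | Gd p w ≤ ρ}) ≤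
      C * (6 * ρ / η) ^ (1/4 : ℝ) := by
  have hη : 0 < η := by linarith
  obtain ⟨κ, S, δ0, -, -, hδ0, -, hsh⟩ := R.shape
  refine up_limit R hμ hρ (by positivity) ?_
  filter_upwards [small_mesh hlim hδ0 (show (0:ℝ) < ρ / 4 by positivity) hη] with i hi
  obtain ⟨i1, i2, -⟩ := hi
  generalize he : δ i = e at i1 i2 ⊢
  have he0 : 0 < e := by rw [← he]; exact hδ i
  have hok := (hsh e he0 i1.le).ok
  obtain ⟨k, d, q1, q2, q3, q4, q5, q6⟩ := scales he0 hρ i2.le hρη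
  have hB := bx_inn R he0 q6 hz q3
  have h2 := vb_one hA hok (c := vx e z) (k := k) (R := d) (by omega) hB
  have h3 : R.prob e (fun F => (∃ u, dist (R.curve e F u) z < 2 * ρ) ∧
      ∃ u, dist (R.curve e F u) w < 2 * ρ) ≤ P (R.dm e).edges (VB (R.dm e) (vx e z) k) := by
    apply Pr_mono two_ok
    rintro F - ⟨⟨u, hu⟩, -⟩
    exact vb_of_near R he0 q1 u hu
  refine h3.trans (h2.trans ?_)
  refine mul_le_mul_of_nonneg_left (Real.rpow_le_rpow (by positivity) ?_ (by norm_num)) hC.le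
  have hdpos : (0:ℝ) < d := lt_of_lt_of_le (by positivity) q4
  calc ((k + 1 : ℕ) : ℝ) / d ≤ (3 * ρ / e) / (η / (2 * e)) :=
        div_le_div₀ (by positivity) q2 (by positivity) q4
    _ = 6 * ρ / η := by field_simp; norm_num

/-- Comparison of the two forms. -/
theorem near_alg {ρ m : ℝ} (hρ : 0 < ρ) (hm : 0 < m) (h : m ≤ 192 * ρ) :
    ρ ^ (1/4 : ℝ) ≤ 4 * (ρ ^ (2 * (1/4) : ℝ) * m ^ (-(1/4) : ℝ)) := by
  have hρq : 0 < ρ ^ (1/4 : ℝ) := Real.rpow_pos_of_pos hρ _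
  have hρ2 : ρ ^ (2 * (1/4) : ℝ) = ρ ^ (1/4 : ℝ) * ρ ^ (1/4 : ℝ) := by
    rw [← Real.rpow_add hρ]; congr 1; ring
  have h4 : (192 * ρ) ^ (-(1/4) : ℝ) ≤ m ^ (-(1/4) : ℝ) :=
    Real.rpow_le_rpow_of_nonpos hm h (by norm_num)
  have h5 : (192 * ρ) ^ (-(1/4) : ℝ) = (192 : ℝ) ^ (-(1/4) : ℝ) * (ρ ^ (1/4 : ℝ))⁻¹ := by
    rw [Real.mul_rpow (by norm_num) hρ.le, Real.rpow_neg hρ.le]
  have h7 : (256 : ℝ) ^ (-(1/4) : ℝ) = 1/4 := by
    have e1 : (256 : ℝ) = (4:ℝ) ^ (4:ℝ) := by norm_num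
    rw [e1, ← Real.rpow_mul (by norm_num), show (4:ℝ) * (-(1/4)) = -1 by norm_num,
      Real.rpow_neg_one]
    norm_num
  have h6' : (256 : ℝ) ^ (-(1/4) : ℝ) ≤ (192 : ℝ) ^ (-(1/4) : ℝ) :=
    Real.rpow_le_rpow_of_nonpos (by norm_num) (by norm_num) (by norm_num)
  have h6 : (1/4 : ℝ) ≤ (192 : ℝ) ^ (-(1/4) : ℝ) := h7.symm.le.trans h6'
  have h8 : 1/4 * (ρ ^ (1/4 : ℝ))⁻¹ ≤ m ^ (-(1/4) : ℝ) := by
    refine le_trans ?_ h4
    rw [h5]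
    exact mul_le_mul_of_nonneg_right h6 (by positivity)
  have h9 := mul_le_mul_of_nonneg_left h8
    (show 0 ≤ 4 * (ρ ^ (1/4 : ℝ) * ρ ^ (1/4 : ℝ)) by positivity)
  rw [hρ2]
  calc ρ ^ (1/4 : ℝ) = 4 * (ρ ^ (1/4 : ℝ) * ρ ^ (1/4 : ℝ)) * (1/4 * (ρ ^ (1/4 : ℝ))⁻¹) := by
        field_simp
    _ ≤ _ := h9
    _ = _ := by ring

end Pool.Agent.Zk33.HF
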