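import Pool.Agent.Zk33.HF.LimC

/-!
Upper bounds for the scaling limits of the exploration path: two discs.
-/

set_option autoImplicit false

namespace Pool.Agent.Zk33.HF

open H974 H984N Finset H342P H984P MeasureTheory Filter Topology Metric TopologicalSpace
open scoped ENNReal NNReal

/-- Distance of the lattice vertices. -/
theorem vx_dist {e : ℝ} (he : 0 < e) {z w : ℂ} {r : ℕ} (hr : sd (vx e z) (vx e w) = r) :
    dist z w ≤ 2 * (e * (r + 1)) ∧ (r : ℝ) ≤ dist z w / e + 1 := by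
  have hsd : ((sd (vx e z) (vx e w) : ℤ) : ℝ) = r := by rw [hr]; simp
  rw [ML.sd_cast] at hsd
  have fzr := Int.floor_le (z.re / e)
  have fzr' := Int.lt_floor_add_one (z.re / e)
  have fzi := Int.floor_le (z.im / e)
  have fzi' := Int.lt_floor_add_one (z.im / e)
  have fwr := Int.floor_le (w.re / e)
  have fwr' := Int.lt_floor_add_one (w.re / e)
  have fwi := Int.floor_le (w.im / e)
  have fwi' := Int.lt_floor_add_one (w.im / e)
  have c1 : |(((vx e z).1 - (vx e w).1 : ℤ) : ℝ) - (z.re - w.re) / e| ≤ 1 := by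
    unfold vx
    push_cast
    rw [sub_div, abs_le]
    constructor <;> linarith
  have c2 : |(((vx e z).2 - (vx e w).2 : ℤ) : ℝ) - (z.im - w.im) / e| ≤ 1 := by
    unfold vx
    push_cast
    rw [sub_div, abs_le]
    constructor <;> linarith
  have c3 : |(((vx e z).1 - (vx e w).1 : ℤ) : ℝ)| ≤ r := by rw [← hsd]; exact le_max_left _ _
  have c4 : |(((vx e z).2 - (vx e w).2 : ℤ) : ℝ)| ≤ r := by rw [← hsd]; exact le_max_right _ _
  constructor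
  · have g1 : |z.re - w.re| ≤ e * (r + 1) := by
      have h5 : |(z.re - w.re) / e| ≤ r + 1 := by
        rw [abs_le] at c1 c3 ⊢
        constructor <;> linarith
      rw [abs_div, abs_of_pos he, div_le_iff₀ he] at h5
      linarith
    have g2 : |z.im - w.im| ≤ e * (r + 1) := by
      have h5 : |(z.im - w.im) / e| ≤ r + 1 := by
        rw [abs_le] at c2 c4 ⊢
        constructor <;> linarith
      rw [abs_div, abs_of_pos he, div_le_iff₀ he] at h5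
      linarith
    have := ML.dist_le_of g1 g2
    linarith
  · rw [← hsd]
    apply max_le
    · have h5 : |(z.re - w.re) / e| ≤ dist z w / e := by
        rw [abs_div, abs_of_pos he]
        exact div_le_div_of_nonneg_right (ML.le_dist_re _ _) he.le
      rw [abs_le] at c1 h5 ⊢
      constructor <;> linarith
    · have h5 : |(z.im - w.im) / e| ≤ dist z w / e := by
        rw [abs_div, abs_of_pos he]
        exact div_le_div_of_nonneg_right (ML.le_dist_im _ _) he.le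
      rw [abs_le] at c2 h5 ⊢
      constructor <;> linarith

theorem inn_dist (R : Rect) {η : ℝ} (hη : 0 < η) {z w : ℂ} (hz : Inn R η z) (hw : Inn R η w) :
    dist z w ≤ R.A + R.B + R.H := by
  obtain ⟨⟨z1, z2⟩, z3, z4⟩ := hz
  obtain ⟨⟨w1, w2⟩, w3, w4⟩ := hw
  exact ML.dist_le_of (z := z) (w := w) (a := R.A + R.B) (b := R.H)
    (by rw [abs_le]; constructor <;> linarith) (by rw [abs_le]; constructor <;> linarith)

theorem rp_div {x e q : ℝ} (hx : 0 < x) (he : 0 < e) :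
    (x / e) ^ (-q) = x ^ (-q) * e ^ q := by
  rw [Real.div_rpow hx.le he.le, Real.rpow_neg he.le, div_inv_eq_mul]

/-- the constant of the bound for two discs -/
theorem far_const {C L r d a b c e : ℝ} {k : ℕ} (hC : 0 ≤ C) (hL : 0 ≤ L) (he : 0 < e)
    (ha : 0 < a) (hb : 0 < b) (hc : 0 < c) (p1 : ((k + 1 : ℕ) : ℝ) ≤ a / e)
    (p2 : b / e ≤ r) (p3 : c / e ≤ d) :
    1024 * C ^ 3 * L * ((((k + 1 : ℕ) : ℝ) ^ (1/4 : ℝ)) ^ 2 *
      (r ^ (-(1/4) : ℝ) * d ^ (-(1/4) : ℝ))) ≤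
    1024 * C ^ 3 * L * ((a ^ (1/4 : ℝ)) ^ 2 * (b ^ (-(1/4) : ℝ) * c ^ (-(1/4) : ℝ))) := by
  have he4 : 0 < e ^ (1/4 : ℝ) := Real.rpow_pos_of_pos he _
  have hr : 0 < r := lt_of_lt_of_le (by positivity) p2
  have hd : 0 < d := lt_of_lt_of_le (by positivity) p3
  have s1 : ((k + 1 : ℕ) : ℝ) ^ (1/4 : ℝ) ≤ (a / e) ^ (1/4 : ℝ) :=
    Real.rpow_le_rpow (by positivity) p1 (by norm_num)
  have s2 : r ^ (-(1/4) : ℝ) ≤ (b / e) ^ (-(1/4) : ℝ) :=
    Real.rpow_le_rpow_of_nonpos (by positivity) p2 (by norm_num)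
  have s3 : d ^ (-(1/4) : ℝ) ≤ (c / e) ^ (-(1/4) : ℝ) :=
    Real.rpow_le_rpow_of_nonpos (by positivity) p3 (by norm_num)
  have r1 : (a / e) ^ (1/4 : ℝ) = a ^ (1/4 : ℝ) * (e ^ (1/4 : ℝ))⁻¹ := by
    rw [Real.div_rpow ha.le he.le, div_eq_mul_inv]
  rw [rp_div hb he] at s2
  rw [rp_div hc he] at s3
  rw [r1] at s1
  refine mul_le_mul_of_nonneg_left ?_ (by positivity)
  have t1 : (((k + 1 : ℕ) : ℝ) ^ (1/4 : ℝ)) ^ 2 ≤ (a ^ (1/4 : ℝ) * (e ^ (1/4 : ℝ))⁻¹) ^ 2 :=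
    pow_le_pow_left₀ (by positivity) s1 2
  have t2 : r ^ (-(1/4) : ℝ) * d ^ (-(1/4) : ℝ) ≤
      (b ^ (-(1/4) : ℝ) * e ^ (1/4 : ℝ)) * (c ^ (-(1/4) : ℝ) * e ^ (1/4 : ℝ)) :=
    mul_le_mul s2 s3 (by positivity) (by positivity)
  refine (mul_le_mul t1 t2 (by positivity) (by positivity)).trans (le_of_eq ?_)
  field_simp

theorem far_bound {C : ℝ} (hC : 1 ≤ C) (hA : AnnUp C) (R : Rect) {η : ℝ} {L : ℕ} (hL : 1 ≤ L)
    (hL1 : 4 * (R.A + R.B + R.H) / η ≤ L)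
    {δ : ℕ → ℝ} (hδ : ∀ i, 0 < δ i) (hlim : Tendsto δ atTop (𝓝 0)) {μ : ProbabilityMeasure X}
    (hμ : Tendsto (fun i => R.law (δ i)) atTop (𝓝 μ)) {z w : ℂ} (hz : Inn R η z)
    (hw : Inn R η w) {ρ : ℝ} (hρ : 0 < ρ) (hρη : ρ ≤ η / 400) (hdw : 192 * ρ ≤ dist z w) :
    (μ : Measure X).real ({p | Gd p z ≤ ρ} ∩ {p | Gd p w ≤ ρ}) ≤
      1024 * C ^ 3 * L * (((3 * ρ) ^ (1/4 : ℝ)) ^ 2 *
        ((dist z w / 4) ^ (-(1/4) : ℝ) * (η / 2) ^ (-(1/4) : ℝ))) := by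
  have hη : 0 < η := by linarith
  have hC0 : 0 ≤ C := by linarith
  have hRA := R.hA
  have hRB := R.hB
  have hRH := R.hH
  have hd0 : 0 < dist z w := lt_of_lt_of_le (by positivity) hdw
  obtain ⟨κ, S, δ0, -, -, hδ0, -, hsh⟩ := R.shape
  refine up_limit R hμ hρ (by positivity) ?_
  filter_upwards [small_mesh hlim hδ0 (show (0:ℝ) < ρ / 4 by positivity)
    (show 0 < R.A + R.B + R.H by positivity)] with i hi
  obtain ⟨i1, i2, i3⟩ := hi
  generalize he : δ i = e at i1 i2 i3 ⊢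
  have he0 : 0 < e := by rw [← he]; exact hδ i
  have hok := (hsh e he0 i1.le).ok
  obtain ⟨k, d, q1, q2, q3, q4, q5, q6⟩ := scales he0 hρ i2.le hρη
  have hBz := bx_inn R he0 q6 hz q3
  have hBw := bx_inn R he0 q6 hw q3
  have hr0 : 0 ≤ sd (vx e z) (vx e w) := le_max_of_le_left (abs_nonneg _)
  obtain ⟨r, hr⟩ := Int.eq_ofNat_of_zero_le hr0
  obtain ⟨g3, g5⟩ := vx_dist he0 hr
  have g4 : dist z w / 4 / e ≤ r := by
    rw [div_le_iff₀ he0]
    have : e ≤ dist z w / 768 := by linarith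
    nlinarith
  have g6 := inn_dist R hη hz hw
  have g7 : (r : ℝ) ≤ L * d := by
    have h5 : dist z w / e + 1 ≤ 2 * (R.A + R.B + R.H) / e := by
      have e1 : dist z w / e ≤ (R.A + R.B + R.H) / e := div_le_div_of_nonneg_right g6 he0.le
      have e2 : 1 ≤ (R.A + R.B + R.H) / e := by rw [le_div_iff₀ he0]; linarith
      have e3 : 2 * (R.A + R.B + R.H) / e = (R.A + R.B + R.H) / e + (R.A + R.B + R.H) / e := by
        ring
      rw [e3]
      linarith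
    calc (r : ℝ) ≤ 2 * (R.A + R.B + R.H) / e := g5.trans h5
      _ = (4 * (R.A + R.B + R.H) / η) * (η / (2 * e)) := by field_simp; norm_num
      _ ≤ L * d := mul_le_mul hL1 q4 (by positivity) (by positivity)
  have n1 : 16 * (k + 1) ≤ r := by
    have h5 : 16 * (3 * ρ / e) ≤ dist z w / 4 / e := by
      rw [le_div_iff₀ he0]
      have : 16 * (3 * ρ / e) * e = 48 * ρ := by field_simp; norm_num
      rw [this]
      linarith
    have h6 : ((16 * (k + 1) : ℕ) : ℝ) ≤ r := by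
      push_cast at q2 ⊢
      linarith
    exact_mod_cast h6
  have h2 := vb_bound hC hA hok (c := vx e z) (c' := vx e w) (k := k) (r := r) (d := d)
    (L := L) hL hr hBz hBw n1 q5 (by exact_mod_cast g7)
  have h3 : R.prob e (fun F => (∃ u, dist (R.curve e F u) z < 2 * ρ) ∧
      ∃ u, dist (R.curve e F u) w < 2 * ρ) ≤
      P (R.dm e).edges (fun F => VB (R.dm e) (vx e z) k F ∧ VB (R.dm e) (vx e w) k F) := by
    apply Pr_mono two_ok
    rintro F - ⟨⟨u, hu⟩, u', hu'⟩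
    exact ⟨vb_of_near R he0 q1 u hu, vb_of_near R he0 q1 u' hu'⟩
  refine h3.trans (h2.trans ?_)
  have q4' : η / 2 / e ≤ d := by
    rw [div_div]
    exact q4
  exact far_const hC0 (by positivity) he0 (by positivity) (by positivity) (by positivity) q2 g4 q4'

/-- Uniform upper bounds for the limits. -/
theorem up_bound {C : ℝ} (hC : 1 ≤ C) (hA : AnnUp C) (R : Rect) {η : ℝ} (hη : 0 < η) :
    ∃ C' : ℝ, 0 < C' ∧ ∀ δ : ℕ → ℝ, (∀ i, 0 < δ i) → Tendsto δ atTop (𝓝 0) →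
      ∀ μ : ProbabilityMeasure X, Tendsto (fun i => R.law (δ i)) atTop (𝓝 μ) →
      ∀ z w : ℂ, Inn R η z → Inn R η w → ∀ ρ : ℝ, 0 < ρ → ρ ≤ η / 400 →
        (μ : Measure X).real ({p | Gd p z ≤ ρ} ∩ {p | Gd p w ≤ ρ}) ≤
          C' * ρ ^ (2 * (1/4) : ℝ) * (max (dist z w) ρ) ^ (-(1/4) : ℝ) := by
  have hRA := R.hA
  have hRB := R.hB
  have hRH := R.hH
  have hC0 : 0 < C := by linarith
  obtain ⟨L, hL⟩ : ∃ L : ℕ, L = ⌈4 * (R.A + R.B + R.H) / η⌉₊ := ⟨_, rfl⟩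
  have hL1 : 4 * (R.A + R.B + R.H) / η ≤ L := by rw [hL]; exact Nat.le_ceil _
  have hLpos : 1 ≤ L := by
    have : (0:ℝ) < L := lt_of_lt_of_le (by positivity) hL1
    exact_mod_cast this
  set C1 : ℝ := 4 * C * (6 / η) ^ (1/4 : ℝ) with hC1
  set C2 : ℝ := 1024 * C ^ 3 * L *
    ((3 : ℝ) ^ (1/2 : ℝ) * ((1/4 : ℝ) ^ (-(1/4) : ℝ) * (η / 2) ^ (-(1/4) : ℝ))) with hC2
  have hC1' : 0 < C1 := by positivity
  have hC2' : 0 ≤ C2 := by positivity
  refine ⟨C1 + C2, by linarith, ?_⟩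
  intro δ hδ hlim μ hμ z w hz hw ρ hρ hρη
  have hm0 : 0 < max (dist z w) ρ := hρ.trans_le (le_max_right _ _)
  have hρ2 : ρ ^ (2 * (1/4) : ℝ) = ρ ^ (1/4 : ℝ) * ρ ^ (1/4 : ℝ) := by
    rw [← Real.rpow_add hρ]; congr 1; ring
  have hT : 0 ≤ ρ ^ (2 * (1/4) : ℝ) * (max (dist z w) ρ) ^ (-(1/4) : ℝ) := by positivity
  rcases lt_or_ge (dist z w) (192 * ρ) with hdw | hdw
  · have h1 := near_bound hC0 hA R hδ hlim hμ (w := w) hz hρ hρη
    have h2 := near_alg hρ hm0 (max_le hdw.le (by linarith))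
    have h3 : C * (6 * ρ / η) ^ (1/4 : ℝ) = C * (6 / η) ^ (1/4 : ℝ) * ρ ^ (1/4 : ℝ) := by
      rw [show 6 * ρ / η = 6 / η * ρ by ring, Real.mul_rpow (by positivity) hρ.le]
      ring
    have h4 : C * (6 / η) ^ (1/4 : ℝ) * ρ ^ (1/4 : ℝ) ≤
        C1 * (ρ ^ (2 * (1/4) : ℝ) * (max (dist z w) ρ) ^ (-(1/4) : ℝ)) := by
      refine (mul_le_mul_of_nonneg_left h2 (by positivity)).trans (le_of_eq ?_)
      rw [hC1]
      ring
    have h5 : 0 ≤ C2 * (ρ ^ (2 * (1/4) : ℝ) * (max (dist z w) ρ) ^ (-(1/4) : ℝ)) :=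
      mul_nonneg hC2' hT
    rw [h3] at h1
    have h6 : (C1 + C2) * ρ ^ (2 * (1/4) : ℝ) * (max (dist z w) ρ) ^ (-(1/4) : ℝ) =
      C1 * (ρ ^ (2 * (1/4) : ℝ) * (max (dist z w) ρ) ^ (-(1/4) : ℝ)) +
      C2 * (ρ ^ (2 * (1/4) : ℝ) * (max (dist z w) ρ) ^ (-(1/4) : ℝ)) := by ring
    rw [h6]
    linarith
  · have hd0 : 0 < dist z w := lt_of_lt_of_le (by positivity) hdw
    have hmax : max (dist z w) ρ = dist z w := max_eq_left (by linarith)
    have h1 := far_bound hC hA R hLpos hL1 hδ hlim hμ hz hw hρ hρη hdw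
    have e0 : (((3:ℝ) ^ (1/4 : ℝ)) ^ 2 : ℝ) = (3 : ℝ) ^ (1/2 : ℝ) := by
      rw [← Real.rpow_natCast ((3:ℝ) ^ (1/4 : ℝ)) 2, ← Real.rpow_mul (by norm_num)]
      norm_num
    have e1 : ((3 * ρ) ^ (1/4 : ℝ)) ^ 2 = (3 : ℝ) ^ (1/2 : ℝ) * ρ ^ (2 * (1/4) : ℝ) := by
      rw [Real.mul_rpow (by norm_num) hρ.le, mul_pow, hρ2, e0]
      ring
    have e2 : (dist z w / 4) ^ (-(1/4) : ℝ) =
        (1/4 : ℝ) ^ (-(1/4) : ℝ) * dist z w ^ (-(1/4) : ℝ) := by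
      rw [show dist z w / 4 = 1/4 * dist z w by ring, Real.mul_rpow (by norm_num) hd0.le]
    rw [e1, e2] at h1
    rw [hmax] at hT ⊢
    have h4 : 1024 * C ^ 3 * L * ((3 : ℝ) ^ (1/2 : ℝ) * ρ ^ (2 * (1/4) : ℝ) *
          ((1/4 : ℝ) ^ (-(1/4) : ℝ) * dist z w ^ (-(1/4) : ℝ) * (η / 2) ^ (-(1/4) : ℝ)))
        = C2 * (ρ ^ (2 * (1/4) : ℝ) * dist z w ^ (-(1/4) : ℝ)) := by
      rw [hC2]
      ring
    rw [h4] at h1
    have h6 : (C1 + C2) * ρ ^ (2 * (1/4) : ℝ) * dist z w ^ (-(1/4) : ℝ) =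
      C1 * (ρ ^ (2 * (1/4) : ℝ) * dist z w ^ (-(1/4) : ℝ)) +
      C2 * (ρ ^ (2 * (1/4) : ℝ) * dist z w ^ (-(1/4) : ℝ)) := by ring
    rw [h6]
    have h5 := mul_nonneg hC1'.le hT
    linarith

end Pool.Agent.Zk33.HF
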