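import Pool.Agent.Zk33.HF.LimB
import Pool.Agent.H934R4.GL.Asm

/-!
Lower bound for the probability that a scaling limit of the exploration path meets a disc.
-/

set_option autoImplicit false

namespace Pool.Agent.Zk33.HF

open H984N MeasureTheory Filter Topology Metric TopologicalSpace
open scoped ENNReal NNReal

theorem hit_eq (z : ℂ) (ρ : ℝ) : {p : X | Gd p z ≤ ρ} = H443B.rgX ⁻¹'
    {K : NonemptyCompacts ℂ | ((K : Set ℂ) ∩ closedBall z ρ).Nonempty} := by
  ext p
  show Gd p z ≤ ρ ↔ ((H443B.rgX p : Set ℂ) ∩ closedBall z ρ).Nonempty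
  rw [Gd_le_iff]
  constructor
  · rintro ⟨u, hu⟩
    exact ⟨p.1 u, ⟨u, rfl⟩, hu⟩
  · rintro ⟨_, ⟨u, rfl⟩, hu⟩
    exact ⟨u, hu⟩

/-- Uniform lower bounds for the limits. -/
theorem low_bound (hGL : H934G.St_GL) (R : H984N.Rect) {η : ℝ} (hη : 0 < η) :
    ∃ a : ℝ, 0 < a ∧ ∀ δ : ℕ → ℝ, (∀ i, 0 < δ i) → Tendsto δ atTop (𝓝 0) →
      ∀ μ : ProbabilityMeasure X, Tendsto (fun i => R.law (δ i)) atTop (𝓝 μ) →
      ∀ z : ℂ, Inn R η z → ∀ ρ : ℝ, 0 < ρ → ρ ≤ η / 400 →
        a * ρ ^ (1/4 : ℝ) ≤ (μ : Measure X).real {p | Gd p z ≤ ρ} := by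
  have hA := R.hA
  have hB := R.hB
  have hH := R.hH
  have ht1 := R.ht1
  have ht2 := R.ht2
  obtain ⟨K, hK1, hK2⟩ : ∃ K : ℝ, R.A + R.B ≤ K * R.H ∧ R.H ≤ K * (R.A + R.B) := by
    refine ⟨(R.A + R.B) / R.H + R.H / (R.A + R.B), ?_, ?_⟩
    · have : 0 ≤ R.H / (R.A + R.B) * R.H := by positivity
      have e : (R.A + R.B) / R.H * R.H = R.A + R.B := by field_simp
      nlinarith
    · have : 0 ≤ (R.A + R.B) / R.H * (R.A + R.B) := by positivity
      have e : R.H / (R.A + R.B) * (R.A + R.B) = R.H := by field_simp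
      nlinarith
  obtain ⟨c, C, hc, -, hGL⟩ := hGL K
  set L : ℝ := R.A + R.B + R.H with hL
  have hL0 : 0 < L := by positivity
  set T0 : ℝ := η * η * R.H ^ 2 / ((L * (L + L)) * (L * (L + L))) with hT0
  have hT0' : 0 < T0 := by positivity
  refine ⟨c * ((1 / L) ^ ((1 : ℝ) / 4) * T0 ^ ((1 : ℝ) / 3)), by positivity, ?_⟩
  intro δ hδ hlim μ hμ z hz ρ hρ hρη
  have h1 := hGL (H443B.toE R) hK1 hK2 δ hδ hlim _ (H443B.limit_trace R hδ hlim hμ) z ρ
  obtain ⟨⟨z1, z2⟩, z3, z4⟩ := hz
  have hzD : z ∈ (H443B.toE R).D := by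
    refine ⟨?_, ?_, ?_, ?_⟩
    · show -R.A < z.re
      linarith
    · show z.re < R.B
      linarith
    · linarith
    · show z.im < R.H
      linarith
  have hrx : 2 * η ≤ (H443B.toE R).rx z := by
    show 2 * η ≤ min (z.re + R.A) (R.B - z.re)
    exact le_min (by linarith) (by linarith)
  have hry : 2 * η ≤ (H443B.toE R).ry z := by
    show 2 * η ≤ min z.im (R.H - z.im)
    exact le_min (by linarith) (by linarith)
  have hrd : 2 * η ≤ (H443B.toE R).rd z := le_min hrx hry
  have hrdL : (H443B.toE R).rd z ≤ L := by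
    refine (min_le_left _ _).trans ((min_le_left _ _).trans ?_)
    show z.re + R.A ≤ L
    linarith
  have hrd0 : 0 < (H443B.toE R).rd z := by linarith
  obtain ⟨h2, -⟩ := h1 hzD hρ (by linarith)
  rw [ProbabilityMeasure.toMeasure_map, Measure.real, Measure.map_apply
    H443B.rgX_cont.measurable (NonemptyCompacts.isClosed_inter_nonempty_of_isClosed
      Metric.isClosed_closedBall).measurableSet, ← hit_eq] at h2
  change _ ≤ (μ : Measure X).real {p | Gd p z ≤ ρ} at h2
  refine le_trans ?_ h2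
  have e1 : (1 / L) ^ ((1 : ℝ) / 4) * ρ ^ (1/4 : ℝ) ≤
      (ρ / (H443B.toE R).rd z) ^ ((1 : ℝ) / 4) := by
    rw [← Real.mul_rpow (by positivity) hρ.le]
    refine Real.rpow_le_rpow (by positivity) ?_ (by norm_num)
    rw [one_div_mul_eq_div]
    exact div_le_div_of_nonneg_left hρ.le hrd0 hrdL
  have hTh : T0 ≤ (H443B.toE R).Th z := by
    have hra : (H443B.toE R).ra ≤ L := by
      refine (min_le_left _ _).trans ?_
      show R.A + R.t ≤ L
      linarith
    have hra0 : 0 < (H443B.toE R).ra := by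
      refine lt_min ?_ ?_
      · show 0 < R.A + R.t
        linarith
      · show 0 < R.B - R.t
        linarith
    have hrb : (H443B.toE R).rb ≤ L := by
      refine (min_le_left _ _).trans ?_
      show R.A ≤ L
      linarith
    have hrb0 : 0 < (H443B.toE R).rb := lt_min hA hB
    have n1 : ‖z - (H443B.toE R).pa‖ ≤ L := by
      refine (Complex.norm_le_abs_re_add_abs_im _).trans ?_
      rw [Complex.sub_re, Complex.sub_im]
      have a1 : |z.re - (H443B.toE R).pa.re| ≤ R.A + R.B := by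
        show |z.re - R.t| ≤ R.A + R.B
        rw [abs_le]
        constructor <;> linarith
      have a2 : |z.im - (H443B.toE R).pa.im| ≤ R.H := by
        show |z.im - R.H| ≤ R.H
        rw [abs_le]
        constructor <;> linarith
      linarith
    have n1' : 0 < ‖z - (H443B.toE R).pa‖ := by
      rw [norm_pos_iff, sub_ne_zero]
      intro h
      have : z.im = R.H := by rw [h]; rfl
      linarith
    have n2 : ‖z‖ ≤ L := by
      refine (Complex.norm_le_abs_re_add_abs_im _).trans ?_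
      have a1 : |z.re| ≤ R.A + R.B := by
        rw [abs_le]
        constructor <;> linarith
      have a2 : |z.im| ≤ R.H := by
        rw [abs_le]
        constructor <;> linarith
      linarith
    have n2' : 0 < ‖z‖ := by
      rw [norm_pos_iff]
      intro h
      rw [h] at z3
      simp at z3
      linarith
    show η * η * R.H ^ 2 / ((L * (L + L)) * (L * (L + L))) ≤
      (H443B.toE R).rx z * (H443B.toE R).ry z * R.H ^ 2 /
        ((‖z - (H443B.toE R).pa‖ * (‖z - (H443B.toE R).pa‖ + (H443B.toE R).ra)) *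
          (‖z‖ * (‖z‖ + (H443B.toE R).rb)))
    have hη1 : η ≤ (H443B.toE R).rx z := by linarith
    have hη2 : η ≤ (H443B.toE R).ry z := by linarith
    apply div_le_div₀
    · have : 0 ≤ (H443B.toE R).rx z := by linarith
      have : 0 ≤ (H443B.toE R).ry z := by linarith
      positivity
    · have : 0 ≤ (H443B.toE R).rx z := by linarith
      gcongr
    · positivity
    · gcongr
  have hTh0 : T0 ^ ((1 : ℝ) / 3) ≤ (H443B.toE R).Th z ^ ((1 : ℝ) / 3) :=
    Real.rpow_le_rpow hT0'.le hTh (by norm_num)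
  calc c * ((1 / L) ^ ((1 : ℝ) / 4) * T0 ^ ((1 : ℝ) / 3)) * ρ ^ (1/4 : ℝ)
      = c * (((1 / L) ^ ((1 : ℝ) / 4) * ρ ^ (1/4 : ℝ)) * T0 ^ ((1 : ℝ) / 3)) := by ring
    _ ≤ c * ((ρ / (H443B.toE R).rd z) ^ ((1 : ℝ) / 4) *
        (H443B.toE R).Th z ^ ((1 : ℝ) / 3)) := by
        refine mul_le_mul_of_nonneg_left ?_ hc.le
        exact mul_le_mul e1 hTh0 (by positivity) (by positivity)

end Pool.Agent.Zk33.HF
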