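import Pool.Agent.Zk33.HF.LimD
import Pool.Agent.Zk33.HF.Low
import Pool.Agent.H985R3.TA.STA
import Pool.Agent.H934R3.SL.SL

/-!
The bounds for the scaling limits of the exploration path, with constants which are uniform over
the limits.
-/

set_option autoImplicit false

namespace Pool.Agent.Zk33.HF

open H984N MeasureTheory Filter Topology Metric Set
open scoped ENNReal NNReal

/-- `μ` is a weak limit of the laws of the exploration paths in the rectangle `R`. -/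
def IsLimit (R : Rect) (μ : ProbabilityMeasure X) : Prop :=
  ∃ δ : ℕ → ℝ, (∀ i, 0 < δ i) ∧ Tendsto δ atTop (𝓝 0) ∧
    Tendsto (fun i => R.law (δ i)) atTop (𝓝 μ)

theorem Bds.mono {Ω : Type*} [TopologicalSpace Ω] [MeasurableSpace Ω] {μ : Measure Ω}
    {G : Ω → ℂ → ℝ} {K K' : Set ℂ} {b a a' C C' ρ0 ρ0' : ℝ} (h : Bds μ G K b a C ρ0)
    (hK : K' ⊆ K) (ha : a' ≤ a) (hC : C ≤ C') (hρ : ρ0' ≤ ρ0) : Bds μ G K' b a' C' ρ0' where
  cont := h.cont
  low := fun z hz ρ h0 h1 => (mul_le_mul_of_nonneg_right ha (by positivity)).trans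
    (h.low z (hK hz) ρ h0 (h1.trans hρ))
  up := fun z hz w hw ρ h0 h1 => by
    refine (h.up z (hK hz) w (hK hw) ρ h0 (h1.trans hρ)).trans ?_
    have hm : 0 < max (dist z w) ρ := h0.trans_le (le_max_right _ _)
    refine mul_le_mul_of_nonneg_right (mul_le_mul_of_nonneg_right hC ?_) ?_
    · positivity
    · positivity

theorem Inn.le {R : Rect} {η η' : ℝ} {z : ℂ} (h : Inn R η z) (hη : η' ≤ η) : Inn R η' z := by
  obtain ⟨⟨h1, h2⟩, h3, h4⟩ := h
  exact ⟨⟨by linarith, by linarith⟩, by linarith, by linarith⟩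

theorem exists_inn (R : Rect) {K : Set ℂ} (hK : IsCompact K) (hD : K ⊆ R.D) :
    ∃ η : ℝ, 0 < η ∧ ∀ z ∈ K, Inn R η z := by
  rcases K.eq_empty_or_nonempty with rfl | hne
  · exact ⟨1, one_pos, fun z hz => absurd hz (notMem_empty z)⟩
  · have hc : Continuous fun z : ℂ => min (min (z.re + R.A) (R.B - z.re)) (min z.im (R.H - z.im)) := by
      fun_prop
    obtain ⟨z0, hz0, hmin⟩ := hK.exists_isMinOn hne hc.continuousOn
    obtain ⟨h1, h2, h3, h4⟩ := hD hz0
    set m := min (min (z0.re + R.A) (R.B - z0.re)) (min z0.im (R.H - z0.im)) with hm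
    have hm0 : 0 < m := by
      rw [hm]
      exact lt_min (lt_min (by linarith) (by linarith)) (lt_min h3 (by linarith))
    refine ⟨m / 2, by positivity, fun z hz => ?_⟩
    have h5 : m ≤ min (min (z.re + R.A) (R.B - z.re)) (min z.im (R.H - z.im)) := hmin hz
    have a1 := h5.trans ((min_le_left _ _).trans (min_le_left _ _))
    have a2 := h5.trans ((min_le_left _ _).trans (min_le_right _ _))
    have a3 := h5.trans ((min_le_right _ _).trans (min_le_left _ _))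
    have a4 := h5.trans ((min_le_right _ _).trans (min_le_right _ _))
    exact ⟨⟨by linarith, by linarith⟩, by linarith, by linarith⟩

theorem annUp : ∃ C : ℝ, 1 ≤ C ∧ AnnUp C := by
  obtain ⟨C, hC, h⟩ := H985T.st_A
  refine ⟨max C 1, le_max_right _ _, fun r R hr hR c1 c2 S => ?_⟩
  refine (h r R hr hR c1 c2 S).trans ?_
  exact mul_le_mul_of_nonneg_right (le_max_left _ _) (by positivity)

/-- The bounds for one rectangle. -/
theorem bds_one (R : Rect) {η : ℝ} (hη : 0 < η) : ∃ a C : ℝ, 0 < a ∧ 0 < C ∧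
    ∀ μ : ProbabilityMeasure X, IsLimit R μ →
      Bds (μ : Measure X) Gd {z | Inn R η z} (1/4) a C (η / 400) := by
  obtain ⟨C0, hC0, hA⟩ := annUp
  obtain ⟨C, hC, hup⟩ := up_bound hC0 hA R hη
  obtain ⟨a, ha, hlow⟩ := low_bound (H934G.st_gl H985T.st_A H934SL.st_L) R hη
  refine ⟨a, C, ha, hC, ?_⟩
  rintro μ ⟨δ, hδ, hlim, hμ⟩
  exact ⟨Gd_cont, fun z hz ρ h0 h1 => hlow δ hδ hlim μ hμ z hz ρ h0 h1,
    fun z hz w hw ρ h0 h1 => hup δ hδ hlim μ hμ z w hz hw ρ h0 h1⟩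

/-- The bounds for finitely many rectangles. -/
theorem bds_all {k : ℕ} (hk : 1 ≤ k) (R : Fin k → Rect) {K : Set ℂ} (hK : IsCompact K)
    (hD : ∀ i, K ⊆ (R i).D) : ∃ a C ρ0 : ℝ, 0 < a ∧ 0 < C ∧ 0 < ρ0 ∧ ρ0 ≤ 1 ∧
    ∀ i, ∀ μ : ProbabilityMeasure X, IsLimit (R i) μ →
      Bds (μ : Measure X) Gd K (1/4) a C ρ0 := by
  have : Nonempty (Fin k) := ⟨⟨0, hk⟩⟩
  choose η hη hin using fun i => exists_inn (R i) hK (hD i)
  choose a C ha hC hb using fun i => bds_one (R i) (hη i)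
  obtain ⟨i1, h1⟩ := Finite.exists_min a
  obtain ⟨i2, h2⟩ := Finite.exists_max C
  obtain ⟨i3, h3⟩ := Finite.exists_min η
  refine ⟨a i1, C i2, min (η i3 / 400) 1, ha i1, hC i2,
    lt_min (by linarith [hη i3]) one_pos, min_le_right _ _, ?_⟩
  intro i μ hμ
  refine (hb i μ hμ).mono (fun z hz => hin i z hz) (h1 i) (h2 i) ?_
  refine (min_le_left _ _).trans ?_
  linarith [h3 i]

end Pool.Agent.Zk33.HF
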