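import Pool.Agent.Zk33.HF.Main0
import Pool.Agent.Zk11.HF.Ind
import Pool.Agent.Zk11.HF.Up
import Pool.Agent.Zk17.HF.Fros
import Pool.Agent.Zk17.HF.Meas

/-!
Common points of independent scaling limits of the exploration path.
-/

set_option autoImplicit false

namespace Pool.Agent.Zk33.HF

open H984N MeasureTheory Filter Topology Metric Set Pool.Agent.H389R2.Dim
open scoped ENNReal NNReal

/-- The common points of the curves. -/
def comm {k : ℕ} (ω : Fin k → X) : Set ℂ := ⋂ i, range (ω i).1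

/-- The sum of the distances to the curves. -/
noncomputable def Gs {k : ℕ} (ω : Fin k → X) (z : ℂ) : ℝ := ∑ i, Gd (ω i) z

theorem Gs_le_zero {k : ℕ} {ω : Fin k → X} {z : ℂ} : Gs ω z ≤ 0 ↔ z ∈ comm ω := by
  unfold Gs comm
  rw [mem_iInter]
  constructor
  · intro h i
    have h0 : ∑ i, Gd (ω i) z = 0 := le_antisymm h (Finset.sum_nonneg fun i _ => Gd_nonneg _ _)
    have h1 := (Finset.sum_eq_zero_iff_of_nonneg fun i _ => Gd_nonneg (ω i) z).1 h0 i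
      (Finset.mem_univ i)
    exact Gd_eq_zero_iff.1 h1.le
  · intro h
    exact Finset.sum_nonpos fun i _ => Gd_eq_zero_iff.2 (h i)

theorem NS_eq {k : ℕ} (S : Set ℂ) (ω : Fin k → X) : NS Gs 0 S ω = S ∩ comm ω := by
  ext z
  show z ∈ S ∧ Gs ω z ≤ 0 ↔ z ∈ S ∧ z ∈ comm ω
  rw [Gs_le_zero]

/-- the product of the limits -/
noncomputable def Pm {k : ℕ} (μ : Fin k → ProbabilityMeasure X) : Measure (Fin k → X) :=
  Measure.pi fun i => (μ i : Measure X)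

instance {k : ℕ} (μ : Fin k → ProbabilityMeasure X) : IsProbabilityMeasure (Pm μ) := by
  unfold Pm
  infer_instance

/-- The bounds for the product. -/
theorem bds_prod {k : ℕ} (hk : 1 ≤ k) (R : Fin k → Rect) {K : Set ℂ} (hK : IsCompact K)
    (hD : ∀ i, K ⊆ (R i).D) : ∃ a C ρ0 : ℝ, 0 < a ∧ 0 < C ∧ 0 < ρ0 ∧ ρ0 ≤ 1 ∧
    ∀ μ : Fin k → ProbabilityMeasure X, (∀ i, IsLimit (R i) (μ i)) →
      Bds (Pm μ) Gs K (k / 4) a C ρ0 := by
  obtain ⟨a, C, ρ0, ha, hC, hρ0, hρ1, h⟩ := bds_all hk R hK hD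
  have hk0 : (0 : ℝ) < k := by exact_mod_cast hk
  refine ⟨a ^ k * (k : ℝ) ^ (-(k * (1/4 : ℝ))), C ^ k, ρ0, by positivity, by positivity, hρ0, hρ1,
    fun μ hμ => ?_⟩
  have h1 := Pool.Agent.Zk11.HF.bds_pi hk (μ := fun i => (μ i : Measure X)) (G := Gd) Gd_nonneg
    (by norm_num) ha hC fun i => h i (μ i) (hμ i)
  have e : (k : ℝ) / 4 = k * (1/4) := by ring
  rw [e]
  exact h1

theorem cont_pairs {k : ℕ} (z : ℂ) :
    Continuous fun p : (Fin k → X) => ((p, z) : (Fin k → X) × ℂ) := Continuous.prodMk_left z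

theorem Gs_cont {k : ℕ} : Continuous fun p : (Fin k → X) × ℂ => Gs p.1 p.2 := by
  refine continuous_finsetSum _ fun i _ => ?_
  have h1 : Continuous fun p : (Fin k → X) × ℂ => ((p.1 i, p.2) : X × ℂ) :=
    ((continuous_apply i).comp continuous_fst).prodMk continuous_snd
  have h2 : Continuous ((fun p : X × ℂ => Gd p.1 p.2) ∘
      fun p : (Fin k → X) × ℂ => ((p.1 i, p.2) : X × ℂ)) := Gd_cont.comp h1
  exact h2

/-- Hitting a compact set is a closed event. -/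
theorem isClosed_hit {k : ℕ} {S : Set ℂ} (hS : IsCompact S) :
    IsClosed {ω : Fin k → X | (S ∩ comm ω).Nonempty} := by
  have h := isOpen_NS_sub (Gs_cont (k := k)) (ε := 0) hS (O := ∅) isOpen_empty
  have e : {ω : Fin k → X | (S ∩ comm ω).Nonempty} = {ω | NS Gs 0 S ω ⊆ ∅}ᶜ := by
    ext ω
    rw [mem_compl_iff, mem_ofPred_eq, mem_ofPred_eq, NS_eq, subset_empty_iff,
      nonempty_iff_ne_empty]
  rw [e]
  exact h.isClosed_compl

/-- **Capacity.** -/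
theorem capacity {k : ℕ} (hk : 1 ≤ k) (R : Fin k → Rect) {K : Set ℂ} (hK : IsCompact K)
    (hD : ∀ i, K ⊆ (R i).D) : ∃ c : ℝ, 0 < c ∧
    ∀ μ : Fin k → ProbabilityMeasure X, (∀ i, IsLimit (R i) (μ i)) →
    ∀ S : Set ℂ, S ⊆ K → IsCompact S → ∀ ν : Measure ℂ, IsProbabilityMeasure ν → ν Sᶜ = 0 →
    ∀ M : ℝ, 0 < M → ∫⁻ x, ∫⁻ y, (edist x y) ^ (-((k : ℝ) / 4)) ∂ν ∂ν ≤ ENNReal.ofReal M →
      c / M ≤ (Pm μ).real {ω | (S ∩ comm ω).Nonempty} := by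
  obtain ⟨a, C, ρ0, ha, hC, hρ0, hρ1, hB⟩ := bds_prod hk R hK hD
  have hk0 : (0 : ℝ) ≤ (k : ℝ) / 4 := by positivity
  refine ⟨a ^ 2 / (8 * (C * 4 ^ ((k : ℝ) / 4))), by positivity, ?_⟩
  intro μ hμ S hSK hS ν hν hνS M hM hE
  have hE' : ∫⁻ x, ∫⁻ y, (edist x y) ^ (-((k : ℝ) / 4 + 0)) ∂ν ∂ν ≤ ENNReal.ofReal M := by
    rw [add_zero]
    exact hE
  have hW := Pool.Agent.Zk17.HF.wt_measure hk0 le_rfl hS ν hνS hM.le hM.le hE hE'
  have key := content_prob (μ := Pm μ) (hB μ hμ) ha hC (E0 := 4 ^ ((k : ℝ) / 4) * M)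
    (E1 := 4 ^ ((k : ℝ) / 4 + 0) * M) (by positivity) (by positivity) hρ0 le_rfl hSK hS
    (fun ρ h0 _ => hW ρ h0)
  have e : a ^ 2 / (8 * (C * 4 ^ ((k : ℝ) / 4))) / M =
      a ^ 2 / (8 * (C * (4 ^ ((k : ℝ) / 4) * M))) := by
    rw [div_div]
    congr 1
    ring
  rw [e]
  refine key.trans (measureReal_mono ?_ (measure_ne_top _ _))
  intro ω hω
  have h1 := nonempty_of_content (by positivity) hω
  rw [NS_eq] at h1
  exact h1

/-- **Content.** -/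
theorem content {k : ℕ} (hk : 1 ≤ k) (R : Fin k → Rect) {K : Set ℂ} (hK : IsCompact K)
    (hD : ∀ i, K ⊆ (R i).D) {t s c : ℝ} (ht : 0 ≤ t) (hts : t + (k : ℝ) / 4 < s) (hc : 0 < c) :
    ∃ c' p : ℝ, 0 < c' ∧ 0 < p ∧
    ∀ μ : Fin k → ProbabilityMeasure X, (∀ i, IsLimit (R i) (μ i)) →
    ∀ S : Set ℂ, S ⊆ K → IsCompact S → Content s c S →
      IsClosed {ω : Fin k → X | Content t c' (S ∩ comm ω)} ∧
      p ≤ (Pm μ).real {ω | Content t c' (S ∩ comm ω)} := by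
  obtain ⟨a, C, ρ0, ha, hC, hρ0, hρ1, hB⟩ := bds_prod hk R hK hD
  have hk0 : (0 : ℝ) ≤ (k : ℝ) / 4 := by positivity
  obtain ⟨Rb, hRb⟩ := hK.isBounded.subset_closedBall 0
  have hRb' : K ⊆ closedBall 0 (max Rb 1) :=
    hRb.trans (closedBall_subset_closedBall (le_max_left _ _))
  obtain ⟨E, hE, hW⟩ := Pool.Agent.Zk17.HF.wt_content (t := t) hc hk0 ht
    (show (k : ℝ) / 4 + t < s by linarith) (lt_of_lt_of_le one_pos (le_max_right Rb 1))
  refine ⟨2 ^ (-t) / (32 * C ^ 2 * E * E / a ^ 4), a ^ 2 / (8 * (C * E)), by positivity,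
    by positivity, ?_⟩
  intro μ hμ S hSK hS hcont
  have key := content_prob (μ := Pm μ) (hB μ hμ) ha hC hE hE hρ0 ht hSK hS
    (fun ρ h0 h1 => hW S hS (hSK.trans hRb') hcont ρ h0 (h1.trans hρ1))
  have hcl := isClosed_content_of (t := t) (c := 2 ^ (-t) / (32 * C ^ 2 * E * E / a ^ 4))
    (A := fun ω : Fin k → X => NS Gs 0 S ω) fun O hO => isOpen_NS_sub Gs_cont hS hO
  simp only [NS_eq] at key hcl
  exact ⟨hcl, key⟩

/-- **Dimension, lower bound.** -/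
theorem dim_low {k : ℕ} (hk : 1 ≤ k) (R : Fin k → Rect) {S : Set ℂ} (hS : IsCompact S)
    (hD : ∀ i, S ⊆ (R i).D) {t : ℝ} (ht : 0 ≤ t)
    (hts : ENNReal.ofReal (t + (k : ℝ) / 4) < dimH S) : ∃ p : ℝ, 0 < p ∧
    ∀ μ : Fin k → ProbabilityMeasure X, (∀ i, IsLimit (R i) (μ i)) →
    ∃ 𝒢 : Set (Fin k → X), IsClosed 𝒢 ∧ p ≤ (Pm μ).real 𝒢 ∧ ∀ ω ∈ 𝒢,
      (S ∩ comm ω).Nonempty ∧ ENNReal.ofReal t ≤ dimH (S ∩ comm ω) := by
  obtain ⟨s, hs1, hs2⟩ : ∃ s : ℝ, t + (k : ℝ) / 4 < s ∧ ENNReal.ofReal s < dimH S := by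
    obtain ⟨q, hq1, hq2, hq3⟩ := ENNReal.lt_iff_exists_real_btwn.1 hts
    refine ⟨q, ?_, hq3⟩
    exact (ENNReal.ofReal_lt_ofReal_iff_of_nonneg (by positivity)).1 hq2
  have hk0 : (0 : ℝ) ≤ (k : ℝ) / 4 := by positivity
  obtain ⟨c, hc, hcont⟩ := content_of_lt_dimH (by linarith) hs2
  obtain ⟨c', p, hc', hp, h⟩ := content hk R hS hD ht hs1 hc
  refine ⟨p, hp, fun μ hμ => ?_⟩
  obtain ⟨h1, h2⟩ := h μ hμ S subset_rfl hS hcont
  refine ⟨_, h1, h2, fun ω hω => ⟨nonempty_of_content hc' hω, ?_⟩⟩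
  rcases ht.eq_or_lt with rfl | ht'
  · simp
  · refine le_dimH_of_content ht' hc' ?_ hω
    refine hS.inter_right ?_
    exact isClosed_iInter fun i => (isCompact_range (ω i).1.continuous).isClosed

end Pool.Agent.Zk33.HF
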