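import Pool.Agent.H984R4.NP.Two
import Pool.Agent.H12R2.Sep.Win2

/-!
Two boxes visited by the exploration path: two annuli around the boxes and one around both.
-/

set_option autoImplicit false

namespace Pool.Agent.Zk33.HF

open H974 H984N Finset H342P H984P H12S

/-- The edges of the box of radius `R` outside of the box of radius `k`. -/
noncomputable def annE (c : Vtx) (k R : ℕ) : Finset Edg :=
  RE (c.1 - R) (c.1 + R) (c.2 - R) (c.2 + R) \ RE (c.1 - k) (c.1 + k) (c.2 - k) (c.2 + k)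

/-- The box of radius `k` around `c` is visited. -/
def VB (D : Dm) (c : Vtx) (k : ℕ) (F : Finset Edg) : Prop :=
  ∃ σ, D.Vis F σ ∧ inR (c.1 - k) (c.1 + k) (c.2 - k) (c.2 + k) σ.1

/-- The box of radius `R` around `c` is contained in the rectangle. -/
def Bx (D : Dm) (c : Vtx) (R : ℕ) : Prop :=
  D.l ≤ c.1 - R ∧ c.1 + R ≤ D.r ∧ 0 ≤ c.2 - R ∧ c.2 + R ≤ D.h

theorem Bx.le {D : Dm} {c : Vtx} {R R' : ℕ} (h : Bx D c R) (hR : R' ≤ R) : Bx D c R' := by
  unfold Bx at *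
  omega

theorem annE_sub {D : Dm} {c : Vtx} {k R : ℕ} (h : Bx D c R) : annE c k R ⊆ D.edges := by
  unfold Bx at h
  refine Finset.sdiff_subset.trans ?_
  exact RE_subset (by omega) (by omega) (by omega) (by omega)

theorem vb_ann {D : Dm} (hD : D.Ok) {F : Finset Edg} (hF : F ⊆ D.edges) {c : Vtx} {k R : ℕ}
    (h : VB D c k F) (hkR : k + 2 ≤ R) (hB : Bx D c R) :
    two_An (annE c k R) c (k + 1) R F := by
  obtain ⟨σ, hv, hσ⟩ := h
  obtain ⟨h1, h2, h3, h4⟩ := hB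
  obtain ⟨g1, g2⟩ := vis_ann hD hF hv hσ hkR h1 h2 h3 h4
  unfold two_An
  constructor
  · refine WA_crs_local (fun e he h => ?_) g1
    obtain ⟨p1, p2⟩ := WA_T_prim he
    simp only [Finset.coe_sdiff, Set.mem_sdiff, Finset.mem_coe, Finset.coe_inter,
      Set.mem_inter_iff, annE] at h ⊢
    refine ⟨h.1, ?_, h.2⟩
    obtain ⟨x, y, _ | _⟩ := e
    · simp only [WA_P, inR, src_mk, tgt_false] at p1 p2
      rw [mem_RE_false]
      omega
    · simp only [WA_P, inR, src_mk, tgt_true] at p1 p2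
      rw [mem_RE_true]
      omega
  · refine WA_dcrs_local (fun e he h => ?_) g2
    simp only [Finset.coe_sdiff, Set.mem_sdiff, Finset.mem_coe, annE] at h ⊢
    refine ⟨⟨?_, h.1.2⟩, h.2⟩
    obtain ⟨-, he⟩ := he
    obtain ⟨x, y, _ | _⟩ := e
    · simp only [WA_Q, dsrc_false, dtgt_mk] at he
      rw [mem_RE_false]
      omega
    · simp only [WA_Q, dsrc_true, dtgt_mk] at he
      rw [mem_RE_true]
      omega

/-- The annulus outside of a box. -/
theorem vb_out {D : Dm} (hD : D.Ok) {F : Finset Edg} (hF : F ⊆ D.edges) {c : Vtx} {k R : ℕ}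
    (h : VB D c k F) (hkR : k + 2 ≤ R) (hB : Bx D c R) :
    two_An (D.edges \ RE (c.1 - k) (c.1 + k) (c.2 - k) (c.2 + k)) c (k + 1) R F := by
  obtain ⟨σ, hv, hσ⟩ := h
  obtain ⟨h1, h2, h3, h4⟩ := hB
  obtain ⟨g1, g2⟩ := vis_ann hD hF hv hσ hkR h1 h2 h3 h4
  unfold two_An
  have e1 : F ∩ (D.edges \ RE (c.1 - k) (c.1 + k) (c.2 - k) (c.2 + k)) =
      F \ RE (c.1 - k) (c.1 + k) (c.2 - k) (c.2 + k) := by
    ext e
    simp only [Finset.mem_inter, Finset.mem_sdiff]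
    constructor
    · rintro ⟨a1, a2, a3⟩
      exact ⟨a1, a3⟩
    · rintro ⟨a1, a3⟩
      exact ⟨a1, hF a1, a3⟩
  rw [e1]
  exact ⟨g1, g2⟩

/-- One box. -/
theorem vb_one {C : ℝ} (hA : AnnUp C) {D : Dm} (hD : D.Ok) {c : Vtx} {k R : ℕ}
    (hkR : k + 2 ≤ R) (hB : Bx D c R) :
    P D.edges (VB D c k) ≤ C * (((k + 1 : ℕ) : ℝ) / R) ^ (1/4:ℝ) := by
  refine le_trans (Pr_mono two_ok fun F hF hv => vb_ann hD hF hv hkR hB) ?_
  exact two_pr hA (annE_sub hB) c (by omega) (by omega)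

/-- Two boxes with disjoint annuli. -/
theorem vb_two {C : ℝ} (hC : 0 ≤ C) (hA : AnnUp C) {D : Dm} (hD : D.Ok) {c c' : Vtx} {k m : ℕ}
    (hkm : k + 2 ≤ m) (hB : Bx D c m) (hB' : Bx D c' m)
    (hd : 2 * (m : ℤ) < sd c c') :
    P D.edges (fun F => VB D c k F ∧ VB D c' k F) ≤
      (C * (((k + 1 : ℕ) : ℝ) / m) ^ (1/4:ℝ)) * (C * (((k + 1 : ℕ) : ℝ) / m) ^ (1/4:ℝ)) := by
  have hs := two_sd (u := c) (v := c') (r := sd c c') rfl
  have hdis : Disjoint (annE c k m) (annE c' k m) := by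
    rw [Finset.disjoint_left]
    rintro ⟨x, y, t⟩ h1 h2
    have h1' := Finset.sdiff_subset h1
    have h2' := Finset.sdiff_subset h2
    cases t
    · rw [mem_RE_false] at h1' h2'
      omega
    · rw [mem_RE_true] at h1' h2'
      omega
  have h1 : P D.edges (fun F => VB D c k F ∧ VB D c' k F) ≤
      P D.edges (fun F => two_An (annE c k m) c (k + 1) m F ∧
        two_An (annE c' k m) c' (k + 1) m F) :=
    Pr_mono two_ok fun F hF hv => ⟨vb_ann hD hF hv.1 hkm hB, vb_ann hD hF hv.2 hkm hB'⟩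
  have h2 : P D.edges (fun F => two_An (annE c k m) c (k + 1) m F ∧
        two_An (annE c' k m) c' (k + 1) m F) =
      P D.edges (two_An (annE c k m) c (k + 1) m) *
        P D.edges (two_An (annE c' k m) c' (k + 1) m) :=
    Pr_indep (annE_sub hB) (annE_sub hB') hdis (fun F _ => two_loc _ _ _ _ F)
      (fun F _ => two_loc _ _ _ _ F)
  rw [h2] at h1
  refine h1.trans ?_
  exact mul_le_mul (two_pr hA (annE_sub hB) c (by omega) (by omega))
    (two_pr hA (annE_sub hB') c' (by omega) (by omega)) (Pr_nonneg two_ok _ _) (by positivity)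

/-- Two boxes with disjoint annuli, and an annulus around both. -/
theorem vb_three {C : ℝ} (hC : 0 ≤ C) (hA : AnnUp C) {D : Dm} (hD : D.Ok) {c c' : Vtx}
    {k m r R : ℕ} (hkm : k + 2 ≤ m) (hr : sd c c' = r) (hmr : 2 * m < r) (hR : r + m + 2 ≤ R)
    (hB : Bx D c R) :
    P D.edges (fun F => VB D c k F ∧ VB D c' k F) ≤
      (C * (((k + 1 : ℕ) : ℝ) / m) ^ (1/4:ℝ)) * ((C * (((k + 1 : ℕ) : ℝ) / m) ^ (1/4:ℝ)) *
        (C * (((r + m + 1 : ℕ) : ℝ) / R) ^ (1/4:ℝ))) := by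
  have hs := two_sd hr
  have hBm : Bx D c m := hB.le (by omega)
  have hBm' : Bx D c' m := by
    unfold Bx at *
    omega
  set X1 := annE c k m with hX1
  set X2 := annE c' k m with hX2
  set B0 := RE (c.1 - ((r + m : ℕ) : ℤ)) (c.1 + ((r + m : ℕ) : ℤ)) (c.2 - ((r + m : ℕ) : ℤ))
    (c.2 + ((r + m : ℕ) : ℤ)) with hB0
  set X3 := D.edges \ B0 with hX3
  have s1 : X1 ⊆ D.edges := annE_sub hBm
  have s2 : X2 ⊆ D.edges := annE_sub hBm'
  have s3 : X3 ⊆ D.edges := Finset.sdiff_subset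
  have b1 : X1 ⊆ B0 := Finset.sdiff_subset.trans (RE_subset (by push_cast; omega)
    (by push_cast; omega) (by push_cast; omega) (by push_cast; omega))
  have b2 : X2 ⊆ B0 := Finset.sdiff_subset.trans (RE_subset (by push_cast; omega)
    (by push_cast; omega) (by push_cast; omega) (by push_cast; omega))
  have d12 : Disjoint X1 X2 := by
    rw [Finset.disjoint_left]
    rintro ⟨x, y, t⟩ h1 h2
    have h1' := Finset.sdiff_subset h1
    have h2' := Finset.sdiff_subset h2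
    cases t
    · rw [mem_RE_false] at h1' h2'
      omega
    · rw [mem_RE_true] at h1' h2'
      omega
  have d13 : Disjoint X1 X3 := Finset.disjoint_of_subset_left b1 Finset.disjoint_sdiff
  have d23 : Disjoint X2 X3 := Finset.disjoint_of_subset_left b2 Finset.disjoint_sdiff
  have i23 : P D.edges (fun F => two_An X2 c' (k + 1) m F ∧ two_An X3 c (r + m + 1) R F) =
      P D.edges (two_An X2 c' (k + 1) m) * P D.edges (two_An X3 c (r + m + 1) R) :=
    Pr_indep s2 s3 d23 (fun F _ => two_loc _ _ _ _ F) (fun F _ => two_loc _ _ _ _ F)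
  have i1 : P D.edges (fun F => two_An X1 c (k + 1) m F ∧
      (two_An X2 c' (k + 1) m F ∧ two_An X3 c (r + m + 1) R F)) =
      P D.edges (two_An X1 c (k + 1) m) *
        P D.edges (fun F => two_An X2 c' (k + 1) m F ∧ two_An X3 c (r + m + 1) R F) := by
    apply Pr_indep s1 (Finset.union_subset s2 s3) (Finset.disjoint_union_right.2 ⟨d12, d13⟩)
      (fun F _ => two_loc _ _ _ _ F)
    intro F _
    rw [← two_loc' (X := X3) Finset.subset_union_right (Y := X2 ∪ X3),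
      ← two_loc' (X := X2) Finset.subset_union_left (Y := X2 ∪ X3)]
  have hm : P D.edges (fun F => VB D c k F ∧ VB D c' k F) ≤
      P D.edges (fun F => two_An X1 c (k + 1) m F ∧
        (two_An X2 c' (k + 1) m F ∧ two_An X3 c (r + m + 1) R F)) := by
    refine Pr_mono two_ok fun F hF hv => ⟨vb_ann hD hF hv.1 hkm hBm,
      vb_ann hD hF hv.2 hkm hBm', ?_⟩
    refine vb_out hD hF (k := r + m) ?_ (by omega) hB
    obtain ⟨σ, h1, h2⟩ := hv.1
    refine ⟨σ, h1, ?_⟩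
    unfold inR at *
    push_cast
    omega
  rw [i1, i23] at hm
  refine hm.trans ?_
  have g1 := two_pr hA s1 c (r := k + 1) (R := m) (by omega) (by omega)
  have g2 := two_pr hA s2 c' (r := k + 1) (R := m) (by omega) (by omega)
  have g3 := two_pr hA s3 c (r := r + m + 1) (R := R) (by omega) (by omega)
  have hpos : 0 ≤ C * (((k + 1 : ℕ) : ℝ) / m) ^ (1/4:ℝ) := by positivity
  exact mul_le_mul g1 (mul_le_mul g2 g3 (Pr_nonneg two_ok _ _) hpos)
    (mul_nonneg (Pr_nonneg two_ok _ _) (Pr_nonneg two_ok _ _)) hpos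

/-- The bound for two boxes. -/
theorem vb_bound {C : ℝ} (hC : 1 ≤ C) (hA : AnnUp C) {D : Dm} (hD : D.Ok) {c c' : Vtx}
    {k r d L : ℕ} (hL : 1 ≤ L) (hr : sd c c' = r) (hB : Bx D c d) (hB' : Bx D c' d)
    (h1 : 16 * (k + 1) ≤ r) (h2 : 64 * (k + 1) ≤ d) (hrL : r ≤ L * d) :
    P D.edges (fun F => VB D c k F ∧ VB D c' k F) ≤
      1024 * C ^ 3 * L * ((((k + 1 : ℕ) : ℝ) ^ (1/4 : ℝ)) ^ 2 *
        ((r : ℝ) ^ (-(1/4) : ℝ) * (d : ℝ) ^ (-(1/4) : ℝ))) := by
  have hC0 : 0 ≤ C := by linarith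
  have hAR : (0:ℝ) < ((k + 1 : ℕ) : ℝ) := by positivity
  have hrR : (0:ℝ) < r := by
    have : 0 < r := by omega
    exact_mod_cast this
  have hdR : (0:ℝ) < d := by
    have : 0 < d := by omega
    exact_mod_cast this
  have hLR : (1:ℝ) ≤ L := by exact_mod_cast hL
  set α := ((k + 1 : ℕ) : ℝ) ^ (1/4 : ℝ) with hα
  set β := (r : ℝ) ^ (-(1/4) : ℝ) with hβ
  set γ := (d : ℝ) ^ (-(1/4) : ℝ) with hγ
  have hα0 : 0 < α := Real.rpow_pos_of_pos hAR _
  have hβ0 : 0 < β := Real.rpow_pos_of_pos hrR _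
  have hγ0 : 0 < γ := Real.rpow_pos_of_pos hdR _
  have hdiv : ∀ {x y : ℝ}, 0 ≤ x → 0 < y → (x / y) ^ (1/4 : ℝ) = x ^ (1/4 : ℝ) * y ^ (-(1/4) : ℝ) := by
    intro x y hx hy
    rw [Real.div_rpow hx hy.le, Real.rpow_neg hy.le, div_eq_mul_inv]
  by_cases h8 : 8 * r ≤ d
  · obtain ⟨m, hm1, hm2⟩ : ∃ m : ℕ, 2 * m < r ∧ r ≤ 4 * m := ⟨(r - 1) / 2, by omega, by omega⟩
    have hmR : (0:ℝ) < m := by
      have : 0 < m := by omega
      exact_mod_cast this
    have h3 := vb_three hC0 hA hD (k := k) (m := m) (r := r) (R := d) (by omega) hr hm1 (by omega) hB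
    refine h3.trans ?_
    have e1 : (((k + 1 : ℕ) : ℝ) / m) ^ (1/4:ℝ) ≤ α * (4 * β) := by
      rw [hdiv hAR.le hmR]
      exact mul_le_mul_of_nonneg_left (two_inv hmR hrR (by norm_num) (by exact_mod_cast hm2))
        hα0.le
    have e2 : (((r + m + 1 : ℕ) : ℝ) / d) ^ (1/4:ℝ) ≤ (2 * β⁻¹) * γ := by
      rw [hdiv (by positivity) hdR]
      refine mul_le_mul_of_nonneg_right ?_ hγ0.le
      have e3 : β⁻¹ = (r:ℝ) ^ (1/4 : ℝ) := by
        rw [hβ, Real.rpow_neg hrR.le, inv_inv]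
      rw [e3]
      refine two_pow (by positivity) hrR.le (by norm_num) ?_
      have : r + m + 1 ≤ 2 * r := by omega
      exact_mod_cast this
    calc (C * (((k + 1 : ℕ) : ℝ) / m) ^ (1/4:ℝ)) * ((C * (((k + 1 : ℕ) : ℝ) / m) ^ (1/4:ℝ)) *
          (C * (((r + m + 1 : ℕ) : ℝ) / d) ^ (1/4:ℝ)))
        ≤ (C * (α * (4 * β))) * ((C * (α * (4 * β))) * (C * ((2 * β⁻¹) * γ))) := by
          gcongr
      _ = 32 * C ^ 3 * (α ^ 2 * (β * γ)) := by
          field_simp
          ring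
      _ ≤ 1024 * C ^ 3 * L * (α ^ 2 * (β * γ)) := by
          refine mul_le_mul_of_nonneg_right ?_ (by positivity)
          have : 0 ≤ C ^ 3 := by positivity
          nlinarith
  · obtain ⟨m, hm1, hm2, hm3, hm4⟩ : ∃ m : ℕ, 2 * m < r ∧ m ≤ d ∧ d ≤ 32 * m ∧ k + 2 ≤ m := by
      refine ⟨min ((r - 1) / 2) d, by omega, by omega, by omega, by omega⟩
    have hmR : (0:ℝ) < m := by
      have : 0 < m := by omega
      exact_mod_cast this
    have h3 := vb_two hC0 hA hD (k := k) (m := m) hm4 (hB.le hm2) (hB'.le hm2)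
      (by rw [hr]; exact_mod_cast hm1)
    refine h3.trans ?_
    have e1 : (((k + 1 : ℕ) : ℝ) / m) ^ (1/4:ℝ) ≤ α * (32 * γ) := by
      rw [hdiv hAR.le hmR]
      exact mul_le_mul_of_nonneg_left (two_inv hmR hdR (by norm_num) (by exact_mod_cast hm3))
        hα0.le
    have e2 : γ ≤ L * β := two_inv hdR hrR hLR (by exact_mod_cast hrL)
    calc (C * (((k + 1 : ℕ) : ℝ) / m) ^ (1/4:ℝ)) * (C * (((k + 1 : ℕ) : ℝ) / m) ^ (1/4:ℝ))
        ≤ (C * (α * (32 * γ))) * (C * (α * (32 * γ))) := by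
          gcongr
      _ = 1024 * C ^ 2 * (α ^ 2 * (γ * γ)) := by ring
      _ ≤ 1024 * C ^ 2 * (α ^ 2 * ((L * β) * γ)) := by gcongr
      _ = 1024 * C ^ 2 * L * (α ^ 2 * (β * γ)) := by ring
      _ ≤ 1024 * C ^ 3 * L * (α ^ 2 * (β * γ)) := by
          have e4 : C ^ 2 ≤ C ^ 3 := pow_le_pow_right₀ hC (by norm_num)
          gcongr

end Pool.Agent.Zk33.HF
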